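import Pool.Agent.Q204.WA.Pres
import Pool.Agent.Helper844.DPRM

/-!
# Arithmetical definability over the standard structure
-/

namespace Q204.WA

open Pool.Agent.Helper844.Dio

/-- the numeral as a term -/
def num : ℕ → Tm
  | 0 => .zero
  | n + 1 => .add (num n) .one

theorem num_val (M : Str) (n : ℕ) (v : ℕ → M.carrier) : (num n).val M v = numeral M n := by
  induction n with
  | zero => rfl
  | succ n ih => simp only [num, Tm.val, numeral, ih]

theorem numeral_std (n : ℕ) : numeral Nstd n = n := by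
  induction n with
  | zero => rfl
  | succ n ih => rw [numeral, ih]; rfl

theorem num_std (n : ℕ) (v : ℕ → ℕ) : (num n).val Nstd v = n :=
  (num_val Nstd n v).trans (numeral_std n)

/-- satisfaction in the standard structure -/
def SN (φ : Fm) (v : ℕ → ℕ) : Prop := Sat Nstd φ v

theorem SN_ex (i : ℕ) (φ : Fm) (v : ℕ → ℕ) : SN (.ex i φ) v ↔
    ∃ a : ℕ, SN φ (Function.update v i a) := sat_ex

theorem SN_all (i : ℕ) (φ : Fm) (v : ℕ → ℕ) : SN (.all i φ) v ↔
    ∀ a : ℕ, SN φ (Function.update v i a) := Iff.rfl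

theorem SN_and (φ ψ : Fm) (v : ℕ → ℕ) : SN (.and φ ψ) v ↔ SN φ v ∧ SN ψ v := Iff.rfl

theorem SN_neg (φ : Fm) (v : ℕ → ℕ) : SN (.neg φ) v ↔ ¬ SN φ v := Iff.rfl

/-- `P` is arithmetical. -/
def AR (P : ℕ → Prop) : Prop :=
  ∀ k : ℕ, ∃ φ : Fm, ∀ v : ℕ → ℕ, SN φ v ↔ P (v k)

/-- value of a term in `ℕ` -/
def evN (t : Tm) (v : ℕ → ℕ) : ℕ := t.val Nstd v

theorem evN_add (s t : Tm) (v : ℕ → ℕ) : evN (.add s t) v = evN s v + evN t v := rfl
theorem evN_mul (s t : Tm) (v : ℕ → ℕ) : evN (.mul s t) v = evN s v * evN t v := rfl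
theorem evN_var (i : ℕ) (v : ℕ → ℕ) : evN (.var i) v = v i := rfl
theorem evN_num (n : ℕ) (v : ℕ → ℕ) : evN (num n) v = n := num_std n v

theorem satN_eq (s t : Tm) (v : ℕ → ℕ) : SN (.eq s t) v ↔ evN s v = evN t v := Iff.rfl
theorem satN_lt (s t : Tm) (v : ℕ → ℕ) : SN (.lt s t) v ↔ evN s v < evN t v := Iff.rfl

theorem poly_terms {γ : Type} (p : Poly γ) (ι : γ → ℕ) :
    ∃ s t : Tm, ∀ v : ℕ → ℕ, p (fun g => v (ι g)) = (evN s v : ℤ) - evN t v := by
  refine Poly.induction (C := fun p => ∃ s t : Tm, ∀ v : ℕ → ℕ,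
    p (fun g => v (ι g)) = (evN s v : ℤ) - evN t v) ?_ ?_ ?_ ?_ p
  · intro i
    refine ⟨.var (ι i), .zero, fun v => ?_⟩
    rw [Poly.proj_apply]
    change (v (ι i) : ℤ) = (v (ι i) : ℤ) - ((0 : ℕ) : ℤ)
    simp
  · intro n
    refine ⟨num n.toNat, num (-n).toNat, fun v => ?_⟩
    rw [Poly.const_apply, evN_num, evN_num]
    omega
  · rintro f g ⟨s1, t1, h1⟩ ⟨s2, t2, h2⟩
    refine ⟨.add s1 t2, .add t1 s2, fun v => ?_⟩
    rw [Poly.sub_apply, h1, h2, evN_add, evN_add]
    push_cast
    ring
  · rintro f g ⟨s1, t1, h1⟩ ⟨s2, t2, h2⟩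
    refine ⟨.add (.mul s1 s2) (.mul t1 t2), .add (.mul s1 t2) (.mul t1 s2), fun v => ?_⟩
    rw [Poly.mul_apply, h1, h2, evN_add, evN_add, evN_mul, evN_mul, evN_mul, evN_mul]
    push_cast
    ring

/-- iterated existential quantification -/
def exL (L : List ℕ) (φ : Fm) : Fm := L.foldr Fm.ex φ

theorem sat_exL (M : Str) (L : List ℕ) (φ : Fm) : ∀ v : ℕ → M.carrier,
    Sat M (exL L φ) v ↔ ∃ w, (∀ i, i ∉ L → w i = v i) ∧ Sat M φ w := by
  induction L with
  | nil =>
    intro v
    constructor
    · intro h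
      exact ⟨v, fun _ _ => rfl, h⟩
    · rintro ⟨w, h1, h2⟩
      have : w = v := funext fun i => h1 i (by simp)
      rw [← this]; exact h2
  | cons a L ih =>
    intro v
    change Sat M (.ex a (exL L φ)) v ↔ _
    rw [sat_ex]
    constructor
    · rintro ⟨b, hb⟩
      obtain ⟨w, h1, h2⟩ := (ih _).mp hb
      refine ⟨w, ?_, h2⟩
      intro i hi
      rw [List.mem_cons, not_or] at hi
      rw [h1 i hi.2, Function.update_of_ne hi.1]
    · rintro ⟨w, h1, h2⟩
      refine ⟨w a, (ih _).mpr ⟨w, ?_, h2⟩⟩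
      intro i hi
      by_cases hia : i = a
      · subst hia; simp
      · rw [Function.update_of_ne hia]
        exact h1 i (by simp [hia, hi])

theorem AR.of_re {P : ℕ → Prop} (h : REPred P) : AR P := by
  intro k
  obtain ⟨δ, _, p, hp⟩ := finite_dummies (dprm h)
  have e : δ ≃ Fin (Fintype.card δ) := Fintype.equivFin δ
  let ι : Unit ⊕ δ → ℕ := Sum.elim (fun _ => k) (fun d => k + 1 + (e d).val)
  obtain ⟨s, t, hst⟩ := poly_terms p ι
  refine ⟨exL ((List.range (Fintype.card δ)).map (k + 1 + ·)) (.eq s t), ?_⟩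
  intro v
  have hex : SN (exL ((List.range (Fintype.card δ)).map (k + 1 + ·)) (.eq s t)) v ↔
      ∃ w : ℕ → ℕ, (∀ i, i ∉ (List.range (Fintype.card δ)).map (k + 1 + ·) → w i = v i) ∧
        SN (.eq s t) w := sat_exL Nstd _ (.eq s t) v
  rw [hex]
  have h1 := hp (fun _ => v k)
  have h2 : P (v k) ↔ ∃ x : δ → ℕ, p (Sum.elim (fun _ => v k) x) = 0 := h1
  rw [h2]
  constructor
  · rintro ⟨w, hw, hs⟩
    have hs' : evN s w = evN t w := hs
    have hwk : w k = v k := by
      apply hw
      simp only [List.mem_map, List.mem_range, not_exists, not_and]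
      intro x _ hx
      omega
    refine ⟨fun d => w (k + 1 + (e d).val), ?_⟩
    have h3 := hst w
    rw [hs', sub_self] at h3
    rw [← h3]
    congr 1
    funext g
    rcases g with _ | d
    · exact hwk.symm
    · rfl
  · rintro ⟨x, hx⟩
    let w : ℕ → ℕ := fun i => if h : k + 1 ≤ i ∧ i < k + 1 + Fintype.card δ then
      x (e.symm ⟨i - (k + 1), by omega⟩) else v i
    have hw : ∀ i, ¬ (k + 1 ≤ i ∧ i < k + 1 + Fintype.card δ) → w i = v i := by
      intro i hi
      simp only [w]
      rw [dif_neg hi]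
    have hwd : ∀ d, w (k + 1 + (e d).val) = x d := by
      intro d
      have h4 : k + 1 ≤ k + 1 + (e d).val ∧ k + 1 + (e d).val < k + 1 + Fintype.card δ :=
        ⟨by omega, by have := (e d).isLt; omega⟩
      simp only [w]
      rw [dif_pos h4]
      congr 1
      rw [Equiv.symm_apply_eq]
      apply Fin.ext
      simp
    refine ⟨w, ?_, ?_⟩
    · intro i hi
      apply hw
      rintro ⟨h5, h6⟩
      apply hi
      rw [List.mem_map]
      exact ⟨i - (k + 1), by rw [List.mem_range]; omega, by omega⟩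
    · change evN s w = evN t w
      have h3 := hst w
      have h7 : (fun g => w (ι g)) = Sum.elim (fun _ => v k) x := by
        funext g
        rcases g with _ | d
        · exact hw k (by omega)
        · exact hwd d
      rw [h7, hx] at h3
      omega

theorem AR.not {P : ℕ → Prop} (h : AR P) : AR (fun n => ¬ P n) := by
  intro k
  obtain ⟨φ, hφ⟩ := h k
  exact ⟨.neg φ, fun v => not_congr (hφ v)⟩

theorem AR.and {P Q : ℕ → Prop} (h : AR P) (h' : AR Q) : AR (fun n => P n ∧ Q n) := by
  intro k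
  obtain ⟨φ, hφ⟩ := h k
  obtain ⟨ψ, hψ⟩ := h' k
  exact ⟨.and φ ψ, fun v => and_congr (hφ v) (hψ v)⟩

theorem AR.of_prim {P : ℕ → Prop} (h : PrimrecPred P) : AR P := AR.of_re h.computablePred.to_re

/-- `v_k = pair(v_i, v_j)`. -/
def pairF (i j k : ℕ) : Fm :=
  .neg (.and (.neg (.and (.lt (.var i) (.var j))
      (.eq (.var k) (.add (.mul (.var j) (.var j)) (.var i)))))
    (.neg (.and (.neg (.lt (.var i) (.var j)))
      (.eq (.var k) (.add (.add (.mul (.var i) (.var i)) (.var i)) (.var j))))))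

theorem pairF_sem (i j k : ℕ) (v : ℕ → ℕ) : SN (pairF i j k) v ↔
    v k = Nat.pair (v i) (v j) := by
  change ¬ (¬ (v i < v j ∧ v k = v j * v j + v i) ∧
    ¬ (¬ v i < v j ∧ v k = v i * v i + v i + v j)) ↔ _
  unfold Nat.pair
  split_ifs with h
  · simp [h]
  · simp [h]

theorem AR.subst {P : ℕ → Prop} (h : AR P) {f : ℕ → ℕ} (hf : Computable f) :
    AR (fun n => P (f n)) := by
  have hG : AR (fun n => f (Nat.unpair n).1 = (Nat.unpair n).2) := by
    apply AR.of_re
    apply ComputablePred.to_re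
    have h1 : Computable (fun n => decide (f (Nat.unpair n).1 = (Nat.unpair n).2)) :=
      Primrec.eq.decide.to_comp.comp (hf.comp (Computable.fst.comp Computable.unpair))
        (Computable.snd.comp Computable.unpair)
    exact ⟨inferInstance, h1⟩
  intro k
  obtain ⟨φ, hφ⟩ := h (k + 1)
  obtain ⟨ψ, hψ⟩ := hG (k + 2)
  refine ⟨.ex (k + 1) (.ex (k + 2) (.and (pairF k (k + 1) (k + 2)) (.and ψ φ))), ?_⟩
  intro v
  rw [SN_ex]
  have key : ∀ a b : ℕ, SN (.and (pairF k (k + 1) (k + 2)) (.and ψ φ))
      (Function.update (Function.update v (k + 1) a) (k + 2) b) ↔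
      b = Nat.pair (v k) a ∧ f (Nat.unpair b).1 = (Nat.unpair b).2 ∧ P a := by
    intro a b
    rw [SN_and, SN_and, pairF_sem, hψ, hφ]
    have e1 : Function.update (Function.update v (k + 1) a) (k + 2) b (k + 2) = b := by simp
    have e2 : Function.update (Function.update v (k + 1) a) (k + 2) b (k + 1) = a := by
      rw [Function.update_of_ne (by omega), Function.update_self]
    have e3 : Function.update (Function.update v (k + 1) a) (k + 2) b k = v k := by
      rw [Function.update_of_ne (by omega), Function.update_of_ne (by omega)]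
    rw [e1, e2, e3]
  constructor
  · rintro ⟨a, ha⟩
    obtain ⟨b, hb⟩ := (SN_ex _ _ _).mp ha
    obtain ⟨rfl, h2, h3⟩ := (key a b).mp hb
    rw [Nat.unpair_pair] at h2
    simp only at h2
    change P (f (v k))
    rw [h2]; exact h3
  · intro hP
    refine ⟨f (v k), (SN_ex _ _ _).mpr ⟨Nat.pair (v k) (f (v k)),
      (key _ _).mpr ⟨rfl, ?_, hP⟩⟩⟩
    simp

theorem AR.all {Q : ℕ → Prop} (h : AR Q) : AR (fun n => ∀ m, Q (Nat.pair n m)) := by
  intro k
  obtain ⟨φ, hφ⟩ := h (k + 2)
  refine ⟨.all (k + 1) (.ex (k + 2) (.and (pairF k (k + 1) (k + 2)) φ)), ?_⟩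
  intro v
  rw [SN_all]
  refine forall_congr' fun a => ?_
  rw [SN_ex]
  have key : ∀ b : ℕ, SN (.and (pairF k (k + 1) (k + 2)) φ)
      (Function.update (Function.update v (k + 1) a) (k + 2) b) ↔
      b = Nat.pair (v k) a ∧ Q b := by
    intro b
    rw [SN_and, pairF_sem, hφ]
    have e1 : Function.update (Function.update v (k + 1) a) (k + 2) b (k + 2) = b := by simp
    have e2 : Function.update (Function.update v (k + 1) a) (k + 2) b (k + 1) = a := by
      rw [Function.update_of_ne (by omega), Function.update_self]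
    have e3 : Function.update (Function.update v (k + 1) a) (k + 2) b k = v k := by
      rw [Function.update_of_ne (by omega), Function.update_of_ne (by omega)]
    rw [e1, e2, e3]
  constructor
  · rintro ⟨b, hb⟩
    obtain ⟨rfl, h3⟩ := (key b).mp hb
    exact h3
  · intro hQ
    exact ⟨Nat.pair (v k) a, (key _).mpr ⟨rfl, hQ⟩⟩

/-! ### Definability in the computable presentation -/

/-- the assignment coded by a number -/
def asg (n : ℕ) : ℕ → ℕ := fun i => (Denumerable.ofNat (List ℕ) n).getD i 0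

/-- the code of the updated assignment -/
def upd (i : ℕ) (p : ℕ) : ℕ :=
  Encodable.encode ((List.range ((Denumerable.ofNat (List ℕ) (Nat.unpair p).1).length + (i + 1))).map
    fun j => if j = i then (Nat.unpair p).2 else
      (Denumerable.ofNat (List ℕ) (Nat.unpair p).1).getD j 0)

theorem asg_upd (i n a : ℕ) : asg (upd i (Nat.pair n a)) = Function.update (asg n) i a := by
  funext j
  unfold asg upd
  rw [Denumerable.ofNat_encode]
  simp only [Nat.unpair_pair]
  by_cases hj : j < (Denumerable.ofNat (List ℕ) n).length + (i + 1)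
  · rw [List.getD_eq_getElem?_getD, List.getElem?_map, List.getElem?_range hj]
    simp only [Option.map_some, Option.getD_some]
    by_cases hji : j = i
    · subst hji; simp
    · rw [if_neg hji, Function.update_of_ne hji]
  · rw [List.getD_eq_getElem?_getD, List.getElem?_eq_none (by simpa using hj)]
    have hji : j ≠ i := by omega
    rw [Function.update_of_ne hji, List.getD_eq_getElem?_getD, List.getElem?_eq_none (by omega)]

theorem prim_asg : Primrec₂ (fun n i => asg n i) :=
  (Primrec.list_getD 0).comp ((Primrec.ofNat (List ℕ)).comp Primrec.fst) Primrec.snd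

theorem prim_upd (i : ℕ) : Primrec (upd i) := by
  have hL : Primrec (fun p : ℕ => Denumerable.ofNat (List ℕ) (Nat.unpair p).1) :=
    (Primrec.ofNat (List ℕ)).comp (Primrec.fst.comp Primrec.unpair)
  refine Primrec.encode.comp (Primrec.list_map (Primrec.list_range.comp
    (Primrec.nat_add.comp (Primrec.list_length.comp hL) (Primrec.const _))) ?_)
  refine Primrec.ite (Primrec.eq.comp Primrec.snd (Primrec.const i)) ?_ ?_
  · exact Primrec.snd.comp (Primrec.unpair.comp Primrec.fst)
  · exact (Primrec.list_getD 0).comp (hL.comp Primrec.fst) Primrec.snd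

/-- value of a term in the computable presentation -/
noncomputable def evR (t : Tm) (v : ℕ → ℕ) : ℕ := t.val Mrec v

theorem prim_evR (t : Tm) : Primrec (fun n => evR t (asg n)) := by
  induction t with
  | var i => exact prim_asg.comp Primrec.id (Primrec.const i)
  | zero => exact Primrec.const 0
  | one => exact Primrec.const 2
  | add s t ihs iht => exact prim_addN.comp ihs iht
  | mul s t ihs iht => exact prim_mulN.comp ihs iht

/-- satisfaction in the computable presentation -/
def SatR (φ : Fm) (v : ℕ → ℕ) : Prop := Sat Mrec φ v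

theorem prim_qf {φ : Fm} (h : QF φ) : PrimrecPred (fun n => SatR φ (asg n)) := by
  induction h with
  | eq s t =>
    have h : PrimrecPred (fun n => evR s (asg n) = evR t (asg n)) :=
      Primrec.eq.comp (prim_evR s) (prim_evR t)
    exact h
  | lt s t =>
    exact prim_ltN.comp (Primrec.pair (prim_evR s) (prim_evR t))
  | neg _ ih => exact ih.not
  | and _ _ ih1 ih2 => exact ih1.and ih2

theorem AR_sat (φ : Fm) : AR (fun n => SatR φ (asg n)) := by
  induction φ with
  | eq s t => exact AR.of_prim (prim_qf (QF.eq s t))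
  | lt s t => exact AR.of_prim (prim_qf (QF.lt s t))
  | neg φ ih => exact ih.not
  | and φ ψ ih1 ih2 => exact ih1.and ih2
  | all i φ ih =>
    have h1 := (ih.subst (prim_upd i).to_comp).all
    have h2 : (fun n => ∀ m, SatR φ (asg (upd i (Nat.pair n m)))) =
        fun n => SatR (.all i φ) (asg n) := by
      funext n
      simp only [asg_upd]
      rfl
    rw [← h2]
    exact h1

end Q204.WA
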