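import Pool.Agent.Q204.WA.Theory

/-!
# A computable presentation of the model
-/

namespace Q204.WA

open Primrec

theorem prim_lor : Primrec₂ (fun x y : ℕ => x ||| y) := by
  have h : Primrec₂ (fun (_ : Unit) (n : ℕ) => (Nat.unpair n).1 ||| (Nat.unpair n).2) := by
    refine nat_strong_rec _ (g := fun _ L => if L.length = 0 then some 0 else
      (L[Nat.pair ((Nat.unpair L.length).1 / 2) ((Nat.unpair L.length).2 / 2)]?).map
        fun r => 2 * r + max ((Nat.unpair L.length).1 % 2) ((Nat.unpair L.length).2 % 2)) ?_ ?_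
    · have hlen : Primrec (fun p : Unit × List ℕ => p.2.length) := list_length.comp snd
      have hu1 : Primrec (fun p : Unit × List ℕ => (Nat.unpair p.2.length).1) :=
        fst.comp (unpair.comp hlen)
      have hu2 : Primrec (fun p : Unit × List ℕ => (Nat.unpair p.2.length).2) :=
        snd.comp (unpair.comp hlen)
      refine Primrec.ite (Primrec.eq.comp hlen (const 0)) (const (some 0)) ?_
      refine option_map (list_getElem?.comp snd (Primrec₂.natPair.comp
        (nat_div.comp hu1 (const 2)) (nat_div.comp hu2 (const 2)))) ?_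
      exact nat_add.comp (nat_mul.comp (const 2) snd)
        (nat_max.comp (nat_mod.comp (hu1.comp fst) (const 2))
          (nat_mod.comp (hu2.comp fst) (const 2)))
    · intro _ n
      simp only [List.length_map, List.length_range]
      by_cases hn : n = 0
      · subst hn; simp
      · rw [if_neg hn]
        have hlt : Nat.pair ((Nat.unpair n).1 / 2) ((Nat.unpair n).2 / 2) < n := by
          rcases Nat.eq_zero_or_pos (Nat.unpair n).1 with h1 | h1
          · have h2 : 0 < (Nat.unpair n).2 := by
              rcases Nat.eq_zero_or_pos (Nat.unpair n).2 with h3 | h3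
              · exfalso
                apply hn
                rw [← Nat.pair_unpair n, h1, h3]
                rfl
              · exact h3
            calc Nat.pair ((Nat.unpair n).1 / 2) ((Nat.unpair n).2 / 2)
                = Nat.pair ((Nat.unpair n).1) ((Nat.unpair n).2 / 2) := by rw [h1]
              _ < Nat.pair (Nat.unpair n).1 (Nat.unpair n).2 :=
                  Nat.pair_lt_pair_right _ (by omega)
              _ = n := Nat.pair_unpair n
          · calc Nat.pair ((Nat.unpair n).1 / 2) ((Nat.unpair n).2 / 2)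
                < Nat.pair ((Nat.unpair n).1) ((Nat.unpair n).2 / 2) :=
                  Nat.pair_lt_pair_left _ (by omega)
              _ ≤ Nat.pair (Nat.unpair n).1 (Nat.unpair n).2 := by
                  rcases Nat.lt_or_ge ((Nat.unpair n).2 / 2) (Nat.unpair n).2 with h | h
                  · exact (Nat.pair_lt_pair_right _ h).le
                  · have : (Nat.unpair n).2 / 2 = (Nat.unpair n).2 := by omega
                    rw [this]
              _ = n := Nat.pair_unpair n
        rw [List.getElem?_map, List.getElem?_range hlt]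
        simp only [Option.map_some, Nat.unpair_pair, Option.some.injEq]
        have h1 := Nat.or_div_two (a := (Nat.unpair n).1) (b := (Nat.unpair n).2)
        have h2 := Nat.or_mod_two_eq_one (a := (Nat.unpair n).1) (b := (Nat.unpair n).2)
        omega
  have h2 : Primrec (fun p : ℕ × ℕ => (Nat.unpair (Nat.pair p.1 p.2)).1 |||
      (Nat.unpair (Nat.pair p.1 p.2)).2) :=
    h.comp (const ()) (Primrec₂.natPair.comp fst snd)
  exact h2.of_eq fun p => by simp

theorem prim_pow2 : Primrec (fun k : ℕ => 2 ^ k) := by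
  have h : Primrec (fun n : ℕ => (Nat.unpair n).1 ^ (Nat.unpair n).2) :=
    Primrec.nat_iff.mpr Nat.Primrec.pow
  have h2 : Primrec (fun k : ℕ => (Nat.unpair (Nat.pair 2 k)).1 ^ (Nat.unpair (Nat.pair 2 k)).2) :=
    h.comp (Primrec₂.natPair.comp (const 2) Primrec.id)
  exact h2.of_eq fun k => by simp

/-- binary logarithm -/
def lg (c : ℕ) : ℕ := Nat.findGreatest (fun k => 2 ^ k ≤ c) c

theorem prim_lg : Primrec lg :=
  nat_findGreatest Primrec.id (nat_le.comp (prim_pow2.comp snd) fst)

theorem lg_pow (k : ℕ) : lg (2 ^ k) = k := by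
  unfold lg
  apply le_antisymm
  · have h := Nat.findGreatest_spec (P := fun j => 2 ^ j ≤ 2 ^ k) (m := k) (n := 2 ^ k)
      (Nat.lt_two_pow_self).le le_rfl
    exact (Nat.pow_le_pow_iff_right (by norm_num)).mp h
  · exact Nat.le_findGreatest (Nat.lt_two_pow_self).le le_rfl

theorem prim_par : Primrec par := snd.comp (unpair.comp (nat_sub.comp Primrec.id (const 1)))

theorem prim_idx : Primrec idx := fst.comp (unpair.comp (nat_sub.comp Primrec.id (const 1)))

/-- codes of types -/
def tyc : Ty → ℕ
  | .z => 0
  | .rho => 1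
  | .u j => 2 * j + 2
  | .v j => 2 * j + 3
  | .rhoV _ => 1

/-- child types on codes -/
def ctN (c i : ℕ) : ℕ :=
  if c = 0 then 2 else if c = 1 then 2 * (Nat.unpair i).1 + 2 else if c = 2 then 2 else
    if c = 3 then (if i % 2 = 0 then 2 else 0) else
      if c % 2 = 0 then c - 1 else (if i % 2 = 0 then c - 3 else c - 2)

theorem prim_ctN : Primrec₂ ctN := by
  have e : ∀ k : ℕ, PrimrecPred (fun p : ℕ × ℕ => p.1 = k) := fun k =>
    Primrec.eq.comp fst (const k)
  have ev : PrimrecPred (fun p : ℕ × ℕ => p.2 % 2 = 0) :=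
    Primrec.eq.comp (nat_mod.comp snd (const 2)) (const 0)
  refine Primrec.ite (e 0) (const 2) (Primrec.ite (e 1) ?_ (Primrec.ite (e 2) (const 2)
    (Primrec.ite (e 3) (Primrec.ite ev (const 2) (const 0)) (Primrec.ite ?_ ?_
      (Primrec.ite ev ?_ ?_)))))
  · exact nat_add.comp (nat_mul.comp (const 2) (fst.comp (unpair.comp snd))) (const 2)
  · exact Primrec.eq.comp (nat_mod.comp fst (const 2)) (const 0)
  · exact nat_sub.comp fst (const 1)
  · exact nat_sub.comp fst (const 3)
  · exact nat_sub.comp fst (const 2)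

theorem ctN_even {c i : ℕ} (h : 4 ≤ c) (h' : c % 2 = 0) : ctN c i = c - 1 := by
  unfold ctN
  rw [if_neg (by omega), if_neg (by omega), if_neg (by omega), if_neg (by omega), if_pos h']

theorem ctN_odd {c i : ℕ} (h : 4 ≤ c) (h' : ¬ c % 2 = 0) :
    ctN c i = if i % 2 = 0 then c - 3 else c - 2 := by
  unfold ctN
  rw [if_neg (by omega), if_neg (by omega), if_neg (by omega), if_neg (by omega), if_neg h']

theorem ctN_tyc (s : Ty) (hs : ∀ m, s ≠ .rhoV m) (i : ℕ) : ctN (tyc s) i = tyc (ct s i) := by
  rcases s with _ | (_ | j) | (_ | j) | _ | m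
  · simp [ctN, tyc, ct]
  · simp [ctN, tyc, ct]
  · change ctN (2 * (j + 1) + 2) i = 2 * j + 3
    rw [ctN_even (by omega) (by omega)]
    omega
  · change ctN 3 i = tyc (if i % 2 = 0 then .u 0 else .z)
    unfold ctN
    split_ifs <;> simp_all [tyc]
  · change ctN (2 * (j + 1) + 3) i = tyc (if i % 2 = 0 then .u j else .v j)
    rw [ctN_odd (by omega) (by omega)]
    split_ifs
    · change _ = 2 * j + 2
      omega
    · change _ = 2 * j + 3
      omega
  · simp [ctN, tyc, ct]
  · exact absurd rfl (hs m)

/-- types of nodes on codes -/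
noncomputable def tyN (n : ℕ) : ℕ := tyc (ty .rho n)

theorem ty_rho_ne (n : ℕ) : ∀ m, ty .rho n ≠ .rhoV m := by
  intro m
  by_cases hn : n = 0
  · subst hn; rw [ty_zero]; simp
  · rw [ty_of_ne hn]
    generalize ty Ty.rho (par n) = s
    generalize idx n = i
    rcases s with _ | (_ | j) | (_ | j) | _ | m' <;> simp only [ct]
    · simp
    · simp
    · simp
    · split_ifs <;> simp
    · split_ifs <;> simp
    · simp
    · split_ifs <;> simp

theorem tyN_zero : tyN 0 = 1 := by
  unfold tyN; rw [ty_zero]; rfl

theorem tyN_ne {n : ℕ} (hn : n ≠ 0) : tyN n = ctN (tyN (par n)) (idx n) := by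
  unfold tyN
  rw [ctN_tyc _ (ty_rho_ne _), ← ty_of_ne hn]

theorem prim_tyN : Primrec tyN := by
  have h : Primrec₂ (fun (_ : Unit) (n : ℕ) => tyN n) := by
    refine nat_strong_rec _ (g := fun _ L => if L.length = 0 then some 1 else
      (L[par L.length]?).map fun r => ctN r (idx L.length)) ?_ ?_
    · have hlen : Primrec (fun p : Unit × List ℕ => p.2.length) := list_length.comp snd
      refine Primrec.ite (Primrec.eq.comp hlen (const 0)) (const (some 1)) ?_
      exact option_map (list_getElem?.comp snd (prim_par.comp hlen))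
        (prim_ctN.comp snd (prim_idx.comp (hlen.comp fst)))
    · intro _ n
      simp only [List.length_map, List.length_range]
      by_cases hn : n = 0
      · subst hn; simp [tyN_zero]
      · rw [if_neg hn, List.getElem?_map, List.getElem?_range (par_lt hn)]
        simp only [Option.map_some, Option.some.injEq]
        exact (tyN_ne hn).symm
  exact (h.comp (const ()) Primrec.id).of_eq fun n => rfl

theorem tyN_zero_iff (n : ℕ) : tyN n = 0 ↔ ty .rho n = .z := by
  unfold tyN
  generalize ty Ty.rho n = s
  rcases s with _ | j | j | _ | m <;> simp [tyc]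

/-- addition on codes -/
def addN (x y : ℕ) : ℕ :=
  if x % 2 = 0 then (if y % 2 = 0 then x + y else y)
  else (if y % 2 = 0 then x else 2 * ((x / 2) ||| (y / 2)) + 1)

/-- parents on codes -/
def parN (c : ℕ) : ℕ := if 2 ^ lg c = c then 2 ^ par (lg c) else c

/-- labels on codes -/
noncomputable def labN (c : ℕ) : ℕ := if 2 ^ lg c = c ∧ tyN (lg c) = 0 then 2 * c + 1 else 0

/-- multiplication on codes -/
noncomputable def mulN (x y : ℕ) : ℕ :=
  if x % 2 = 0 then (if y % 2 = 0 then x * (y / 2) else if x = 0 then labN (y / 2)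
    else 2 * parN (y / 2) + 1)
  else (if y % 2 = 0 then (if y = 0 then 0 else x) else 2 * ((x / 2) ||| (y / 2)) + 1)

/-- order on codes -/
def ltN (x y : ℕ) : Prop :=
  (x % 2 = 0 ∧ (¬ y % 2 = 0 ∨ x < y)) ∨ (¬ x % 2 = 0 ∧ ¬ y % 2 = 0 ∧ (x / 2) ||| (y / 2) = y / 2)

theorem prim_x : Primrec (fun p : ℕ × ℕ => p.1) := fst
theorem prim_y : Primrec (fun p : ℕ × ℕ => p.2) := snd
theorem prim_xe : PrimrecPred (fun p : ℕ × ℕ => p.1 % 2 = 0) :=
  Primrec.eq.comp (nat_mod.comp fst (const 2)) (const 0)
theorem prim_ye : PrimrecPred (fun p : ℕ × ℕ => p.2 % 2 = 0) :=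
  Primrec.eq.comp (nat_mod.comp snd (const 2)) (const 0)
theorem prim_or : Primrec (fun p : ℕ × ℕ => (p.1 / 2) ||| (p.2 / 2)) :=
  prim_lor.comp (nat_div.comp fst (const 2)) (nat_div.comp snd (const 2))
theorem prim_or' : Primrec (fun p : ℕ × ℕ => 2 * ((p.1 / 2) ||| (p.2 / 2)) + 1) :=
  nat_add.comp (nat_mul.comp (const 2) prim_or) (const 1)

theorem prim_addN : Primrec₂ addN :=
  Primrec.ite prim_xe (Primrec.ite prim_ye (nat_add.comp fst snd) snd)
    (Primrec.ite prim_ye fst prim_or')

theorem prim_parN : Primrec parN :=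
  Primrec.ite (Primrec.eq.comp (prim_pow2.comp prim_lg) Primrec.id)
    (prim_pow2.comp (prim_par.comp prim_lg)) Primrec.id

theorem prim_labN : Primrec labN := by
  classical
  refine Primrec.ite (PrimrecPred.and (Primrec.eq.comp (prim_pow2.comp prim_lg) Primrec.id)
    (Primrec.eq.comp (prim_tyN.comp prim_lg) (const 0))) ?_ (const 0)
  exact nat_add.comp (nat_mul.comp (const 2) Primrec.id) (const 1)

theorem prim_mulN : Primrec₂ mulN := by
  refine Primrec.ite prim_xe (Primrec.ite prim_ye
    (nat_mul.comp fst (nat_div.comp snd (const 2)))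
    (Primrec.ite (Primrec.eq.comp fst (const 0)) (prim_labN.comp (nat_div.comp snd (const 2))) ?_))
    (Primrec.ite prim_ye (Primrec.ite (Primrec.eq.comp snd (const 0)) (const 0) fst) prim_or')
  exact nat_add.comp (nat_mul.comp (const 2) (prim_parN.comp (nat_div.comp snd (const 2))))
    (const 1)

theorem prim_ltN : PrimrecPred (fun p : ℕ × ℕ => ltN p.1 p.2) :=
  PrimrecPred.or (PrimrecPred.and prim_xe (PrimrecPred.or prim_ye.not (nat_lt.comp fst snd)))
    (PrimrecPred.and prim_xe.not (PrimrecPred.and prim_ye.not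
      (Primrec.eq.comp prim_or (nat_div.comp snd (const 2)))))

end Q204.WA
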