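import Mathlib

/-!
# First-order arithmetic in the language `{0, 1, +, ×, <}`

Syntax, semantics, the formula classes `Δ₀`, `Σₙ`, `Πₙ`, Robinson arithmetic, and the four classes
of theories of the problem.
-/

namespace Q204.WA

/-- Terms; the variables are `v₀, v₁, ...` -/
inductive Tm : Type
  | var (i : ℕ) : Tm
  | zero : Tm
  | one : Tm
  | add (s t : Tm) : Tm
  | mul (s t : Tm) : Tm

/-- Formulas. -/
inductive Fm : Type
  | eq (s t : Tm) : Fm
  | lt (s t : Tm) : Fm
  | neg (φ : Fm) : Fm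
  | and (φ ψ : Fm) : Fm
  | all (i : ℕ) (φ : Fm) : Fm

namespace Fm

/-- implication -/
def imp (φ ψ : Fm) : Fm := neg (and φ (neg ψ))
/-- equivalence -/
def iff (φ ψ : Fm) : Fm := and (imp φ ψ) (imp ψ φ)
/-- existential quantification -/
def ex (i : ℕ) (φ : Fm) : Fm := neg (all i (neg φ))

end Fm

/-- Variables of a term. -/
def Tm.vars : Tm → Set ℕ
  | .var i => {i}
  | .zero => ∅
  | .one => ∅
  | .add s t => s.vars ∪ t.vars
  | .mul s t => s.vars ∪ t.vars

/-- Free variables of a formula. -/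
def Fm.fv : Fm → Set ℕ
  | .eq s t => s.vars ∪ t.vars
  | .lt s t => s.vars ∪ t.vars
  | .neg φ => φ.fv
  | .and φ ψ => φ.fv ∪ ψ.fv
  | .all i φ => φ.fv \ {i}

/-- A structure for the language. -/
structure Str where
  carrier : Type
  zero : carrier
  one : carrier
  add : carrier → carrier → carrier
  mul : carrier → carrier → carrier
  lt : carrier → carrier → Prop

/-- The value of a term. -/
def Tm.val (M : Str) (v : ℕ → M.carrier) : Tm → M.carrier
  | .var i => v i
  | .zero => M.zero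
  | .one => M.one
  | .add s t => M.add (s.val M v) (t.val M v)
  | .mul s t => M.mul (s.val M v) (t.val M v)

/-- Satisfaction. -/
def Sat (M : Str) : Fm → (ℕ → M.carrier) → Prop
  | .eq s t, v => s.val M v = t.val M v
  | .lt s t, v => M.lt (s.val M v) (t.val M v)
  | .neg φ, v => ¬ Sat M φ v
  | .and φ ψ, v => Sat M φ v ∧ Sat M ψ v
  | .all i φ, v => ∀ a : M.carrier, Sat M φ (Function.update v i a)

/-- `Δ₀` formulas: all quantifiers are bounded, `∀ vᵢ < t` with `vᵢ` not in `t`
(the bounded existential quantifier is `¬ ∀ vᵢ < t ¬`). -/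
inductive Delta0 : Fm → Prop
  | eq (s t : Tm) : Delta0 (.eq s t)
  | lt (s t : Tm) : Delta0 (.lt s t)
  | neg {φ : Fm} : Delta0 φ → Delta0 (.neg φ)
  | and {φ ψ : Fm} : Delta0 φ → Delta0 ψ → Delta0 (.and φ ψ)
  | ball {φ : Fm} (i : ℕ) (t : Tm) : i ∉ t.vars → Delta0 φ →
      Delta0 (.all i (.imp (.lt (.var i) t) φ))

/-- `Hier true n` is the class of `Σₙ` formulas, `Hier false n` that of `Πₙ` formulas:
`n` alternating blocks of quantifiers in front of a `Δ₀` formula. -/
inductive Hier : Bool → ℕ → Fm → Prop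
  | base {φ : Fm} (b : Bool) : Delta0 φ → Hier b 0 φ
  | up {b : Bool} {n : ℕ} {φ : Fm} : Hier (!b) n φ → Hier b (n + 1) φ
  | ex {n : ℕ} {φ : Fm} (i : ℕ) : Hier true (n + 1) φ → Hier true (n + 1) (.ex i φ)
  | all {n : ℕ} {φ : Fm} (i : ℕ) : Hier false (n + 1) φ → Hier false (n + 1) (.all i φ)

/-- Quantifier-free formulas. -/
inductive QF : Fm → Prop
  | eq (s t : Tm) : QF (.eq s t)
  | lt (s t : Tm) : QF (.lt s t)
  | neg {φ : Fm} : QF φ → QF (.neg φ)
  | and {φ ψ : Fm} : QF φ → QF ψ → QF (.and φ ψ)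

/-- Existential formulas. -/
inductive Existential : Fm → Prop
  | qf {φ : Fm} : QF φ → Existential φ
  | ex {φ : Fm} (i : ℕ) : Existential φ → Existential (.ex i φ)

/-- The sentence or formula is true in `M` under every assignment. -/
def Holds (M : Str) (φ : Fm) : Prop := ∀ v, Sat M φ v

/-- `M` is a model of the set `A`. -/
def Models (M : Str) (A : Set Fm) : Prop := ∀ φ ∈ A, Holds M φ

/-- `φ` follows from `A` (equivalently, by the completeness theorem, is provable from `A`). -/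
def Proves (A : Set Fm) (φ : Fm) : Prop := ∀ M : Str, Models M A → Holds M φ

/-- Sentences. -/
def IsSentence (φ : Fm) : Prop := φ.fv = ∅

/-- Theories: deductively closed sets of sentences. -/
def IsTheory (T : Set Fm) : Prop :=
  (∀ φ ∈ T, IsSentence φ) ∧ ∀ φ, IsSentence φ → Proves T φ → φ ∈ T

/-- Consistency. -/
def Consistent (T : Set Fm) : Prop := ∃ M : Str, Models M T

/-- `T'` is a completion of `T`. -/
def IsCompletion (T T' : Set Fm) : Prop :=
  T ⊆ T' ∧ IsTheory T' ∧ Consistent T' ∧ ∀ φ, IsSentence φ → φ ∈ T' ∨ Fm.neg φ ∈ T'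

/-- `T` is of restricted complexity. -/
def Restricted (T : Set Fm) : Prop :=
  ∃ n : ℕ, ∃ A : Set Fm, (∀ φ ∈ A, IsSentence φ ∧ Hier true n φ) ∧
    ∀ φ, IsSentence φ → (φ ∈ T ↔ Proves A φ)

/-- The axioms of Robinson arithmetic `Q` (the successor of `x` is `x + 1`; both usual
definitions of `<` are included, as is `0 + 1 = 1`). -/
def QAx : Set Fm :=
  { .eq (.add .zero .one) .one,
    .all 0 (.neg (.eq (.add (.var 0) .one) .zero)),
    .all 0 (.all 1 (.imp (.eq (.add (.var 0) .one) (.add (.var 1) .one)) (.eq (.var 0) (.var 1)))),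
    .all 0 (.imp (.neg (.eq (.var 0) .zero)) (.ex 1 (.eq (.var 0) (.add (.var 1) .one)))),
    .all 0 (.eq (.add (.var 0) .zero) (.var 0)),
    .all 0 (.all 1 (.eq (.add (.var 0) (.add (.var 1) .one)) (.add (.add (.var 0) (.var 1)) .one))),
    .all 0 (.eq (.mul (.var 0) .zero) .zero),
    .all 0 (.all 1 (.eq (.mul (.var 0) (.add (.var 1) .one)) (.add (.mul (.var 0) (.var 1)) (.var 0)))),
    .all 0 (.all 1 (.iff (.lt (.var 0) (.var 1)) (.ex 2 (.eq (.add (.var 0) (.add (.var 2) .one)) (.var 1))))),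
    .all 0 (.all 1 (.iff (.lt (.var 0) (.var 1)) (.ex 2 (.eq (.add (.add (.var 2) .one) (.var 0)) (.var 1))))) }

/-- The consistent theories containing `Q`. -/
def TQ : Set (Set Fm) := {T | IsTheory T ∧ Consistent T ∧ QAx ⊆ T}

/-- No completion is of restricted complexity. -/
def Tnrestr : Set (Set Fm) := {T | T ∈ TQ ∧ ∀ T', IsCompletion T T' → ¬ Restricted T'}

/-- Every `Σ₁` formula is `T`-provably equivalent to an existential formula. -/
def TMRDP : Set (Set Fm) :=
  {T | T ∈ TQ ∧ ∀ φ, Hier true 1 φ → ∃ ψ, Existential ψ ∧ Proves T (.iff φ ψ)}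

/-- The standard structure. -/
def Nstd : Str := ⟨ℕ, 0, 1, (· + ·), (· * ·), (· < ·)⟩

/-- Isomorphism of structures. -/
structure Iso (M N : Str) where
  e : M.carrier ≃ N.carrier
  zero : e M.zero = N.zero
  one : e M.one = N.one
  add : ∀ a b, e (M.add a b) = N.add (e a) (e b)
  mul : ∀ a b, e (M.mul a b) = N.mul (e a) (e b)
  lt : ∀ a b, M.lt a b ↔ N.lt (e a) (e b)

/-- The structure with universe `ℕ` given by the data. -/
def natStr (z o : ℕ) (add mul : ℕ → ℕ → ℕ) (lt : ℕ → ℕ → Prop) : Str := ⟨ℕ, z, o, add, mul, lt⟩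

/-- No nonstandard recursive model. -/
def Tnrec : Set (Set Fm) :=
  {T | T ∈ TQ ∧ ∀ (z o : ℕ) (add mul : ℕ → ℕ → ℕ) (lt : ℕ → ℕ → Prop),
    Computable₂ add → Computable₂ mul → ComputablePred (fun p : ℕ × ℕ => lt p.1 p.2) →
    Models (natStr z o add mul lt) T → Nonempty (Iso (natStr z o add mul lt) Nstd)}

/-- Gödel numbers of terms. -/
def Tm.code : Tm → ℕ
  | .var i => 5 * i
  | .zero => 1
  | .one => 2
  | .add s t => 5 * Nat.pair s.code t.code + 3
  | .mul s t => 5 * Nat.pair s.code t.code + 4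

/-- Gödel numbers of formulas. -/
def Fm.code : Fm → ℕ
  | .eq s t => 5 * Nat.pair s.code t.code
  | .lt s t => 5 * Nat.pair s.code t.code + 1
  | .neg φ => 5 * φ.code + 2
  | .and φ ψ => 5 * Nat.pair φ.code ψ.code + 3
  | .all i φ => 5 * Nat.pair i φ.code + 4

/-- The value of the numeral `(…(0 + 1) + 1…) + 1` in `M`. -/
def numeral (M : Str) : ℕ → M.carrier
  | 0 => M.zero
  | n + 1 => M.add (numeral M n) M.one

/-- There is a formula `S` with `T ⊢ ∀ v₀ (S(⌜φ⌝, v₀) ↔ φ(v₀))` for all `Δ₀` formulas `φ` with no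
free variable but `v₀`; the variable `v₁` of `S` is for the Gödel number. If `Sat(x, y)` satisfies
`T`-provably Tarski's clauses for `Δ₀` formulas `x` under assignments `y`, then
`∃ y (y assigns v₀ to the variable v₀ ∧ Sat(v₁, y))` is such a formula. -/
def HasUnaryTruth (T : Set Fm) : Prop :=
  ∃ S : Fm, ∀ φ, Delta0 φ → φ.fv ⊆ {0} → ∀ M : Str, Models M T → ∀ v : ℕ → M.carrier,
    v 1 = numeral M φ.code → (Sat M S v ↔ Sat M φ v)

/-- The theories with a truth definition for unary `Δ₀` formulas (a class containing `T_truth`). -/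
def TtruthU : Set (Set Fm) := {T | T ∈ TQ ∧ HasUnaryTruth T}

end Q204.WA
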