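import Pool.Agent.Q204.WA.Model

/-!
# Back and forth between the models
-/

namespace Q204.WA

theorem val_update (M : Str) {t : Tm} {i : ℕ} (hi : i ∉ t.vars) (v : ℕ → M.carrier)
    (a : M.carrier) : t.val M (Function.update v i a) = t.val M v := by
  induction t with
  | var j =>
    have : j ≠ i := fun h => hi (by simp [Tm.vars, h])
    simp [Tm.val, this]
  | zero => rfl
  | one => rfl
  | add s t ihs iht =>
    simp only [Tm.vars, Set.mem_union, not_or] at hi
    simp only [Tm.val, ihs hi.1, iht hi.2]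
  | mul s t ihs iht =>
    simp only [Tm.vars, Set.mem_union, not_or] at hi
    simp only [Tm.val, ihs hi.1, iht hi.2]

theorem sat_ball (M : Str) {t : Tm} {i : ℕ} (hi : i ∉ t.vars) (φ : Fm) (v : ℕ → M.carrier) :
    Sat M (.all i (.imp (.lt (.var i) t) φ)) v ↔
      ∀ a, M.lt a (t.val M v) → Sat M φ (Function.update v i a) := by
  simp only [Sat, Fm.imp, not_and, not_not]
  refine forall_congr' fun a => ?_
  rw [val_update M hi]
  simp only [Tm.val, Function.update_self]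

/-- the back-and-forth relations between types. -/
def E (k : ℕ) (s t : Ty) : Prop :=
  s = t ∨ (∃ j, s = .u j ∧ t = .v j ∧ k ≤ j + 1) ∨ (∃ j, s = .v j ∧ t = .u j ∧ k ≤ j) ∨
    (∃ m, s = .rho ∧ t = .rhoV m ∧ k ≤ m + 1) ∨ (∃ m, s = .rhoV m ∧ t = .rho ∧ k ≤ m)

theorem E.refl (k : ℕ) (s : Ty) : E k s s := Or.inl rfl

theorem E.label {k : ℕ} {s t : Ty} (h : E k s t) : s = .z ↔ t = .z := by
  rcases h with rfl | ⟨j, rfl, rfl, _⟩ | ⟨j, rfl, rfl, _⟩ | ⟨m, rfl, rfl, _⟩ |
    ⟨m, rfl, rfl, _⟩ <;> simp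

theorem E.flip {k : ℕ} {s t : Ty} (h : E (k + 1) s t) : E k t s := by
  rcases h with rfl | ⟨j, rfl, rfl, h⟩ | ⟨j, rfl, rfl, h⟩ | ⟨m, rfl, rfl, h⟩ |
    ⟨m, rfl, rfl, h⟩
  · exact E.refl _ _
  · exact Or.inr (Or.inr (Or.inl ⟨j, rfl, rfl, by omega⟩))
  · exact Or.inr (Or.inl ⟨j, rfl, rfl, by omega⟩)
  · exact Or.inr (Or.inr (Or.inr (Or.inr ⟨m, rfl, rfl, by omega⟩)))
  · exact Or.inr (Or.inr (Or.inr (Or.inl ⟨m, rfl, rfl, by omega⟩)))

/-- Every child type occurs infinitely often. -/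
theorem ct_inf (s : Ty) (i N : ℕ) : ∃ i', N ≤ i' ∧ ct s i' = ct s i := by
  have hpar : ∃ i', N ≤ i' ∧ i' % 2 = i % 2 := ⟨2 * N + i, by omega, by omega⟩
  rcases s with _ | (_ | j) | (_ | j) | _ | m
  · exact ⟨N, le_rfl, rfl⟩
  · exact ⟨N, le_rfl, rfl⟩
  · exact ⟨N, le_rfl, rfl⟩
  · obtain ⟨i', h1, h2⟩ := hpar
    exact ⟨i', h1, by simp only [ct, h2]⟩
  · obtain ⟨i', h1, h2⟩ := hpar
    exact ⟨i', h1, by simp only [ct, h2]⟩
  · refine ⟨Nat.pair (Nat.unpair i).1 N, Nat.right_le_pair _ _, ?_⟩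
    simp [ct]
  · rcases Nat.mod_two_eq_zero_or_one i with h | h
    · refine ⟨2 * Nat.pair (Nat.unpair (i / 2)).1 N, ?_, ?_⟩
      · have := Nat.right_le_pair (Nat.unpair (i / 2)).1 N
        omega
      · simp only [ct, h]
        simp
    · refine ⟨2 * N + 1, by omega, ?_⟩
      simp only [ct, h]
      have : (2 * N + 1) % 2 = 1 := by omega
      simp [this]

theorem E.step {k : ℕ} {s t : Ty} (h : E (k + 1) s t) (i : ℕ) :
    ∃ i', E (k + 1) (ct s i) (ct t i') := by
  rcases h with rfl | ⟨j, rfl, rfl, h⟩ | ⟨j, rfl, rfl, h⟩ | ⟨m, rfl, rfl, h⟩ |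
    ⟨m, rfl, rfl, h⟩
  · exact ⟨i, E.refl _ _⟩
  · rcases j with _ | j
    · exact ⟨0, by simp [ct, E]⟩
    · exact ⟨1, by simp [ct, E]⟩
  · rcases j with _ | j
    · omega
    · refine ⟨0, ?_⟩
      by_cases hi : i % 2 = 0
      · simp only [ct, hi, if_true]
        exact Or.inr (Or.inl ⟨j, rfl, rfl, by omega⟩)
      · simp only [ct, hi, if_false]
        exact E.refl _ _
  · refine ⟨2 * i, ?_⟩
    simp [ct, E]
  · by_cases hi : i % 2 = 0
    · refine ⟨i / 2, ?_⟩
      simp [ct, hi, E]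
    · refine ⟨Nat.pair m 0, ?_⟩
      simp only [ct, hi, if_false, Nat.unpair_pair]
      exact Or.inr (Or.inr (Or.inl ⟨m, rfl, rfl, by omega⟩))

/-- Positions of the game. -/
structure Pos (k : ℕ) (r r' : Ty) (F : ℕ → ℕ → Prop) : Prop where
  root : F 0 0
  fn : ∀ x y y', F x y → F x y' → y = y'
  inj : ∀ x x' y, F x y → F x' y → x = x'
  par : ∀ x y, F x y → F (par x) (par y)
  ty : ∀ x y, F x y → E k (ty r x) (ty r' y)
  fin : ∃ N, ∀ x y, F x y → y < N

theorem Pos.flip {k : ℕ} {r r' : Ty} {F : ℕ → ℕ → Prop} (h : Pos (k + 1) r r' F)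
    (hf : ∃ N, ∀ x y, F x y → x < N) : Pos k r' r (fun x y => F y x) where
  root := h.root
  fn := fun x y y' h1 h2 => h.inj _ _ _ h1 h2
  inj := fun x x' y h1 h2 => h.fn _ _ _ h1 h2
  par := fun x y h1 => h.par _ _ h1
  ty := fun x y h1 => (h.ty _ _ h1).flip
  fin := by
    obtain ⟨N, hN⟩ := hf
    exact ⟨N, fun x y h1 => hN _ _ h1⟩

/-- Extension by one node. -/
theorem Pos.extend {k : ℕ} {r r' : Ty} : ∀ (x : ℕ) {F : ℕ → ℕ → Prop}
    (_ : Pos (k + 1) r r' F) (_ : ∃ N, ∀ x y, F x y → x < N),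
    ∃ F' : ℕ → ℕ → Prop, Pos (k + 1) r r' F' ∧ (∃ N, ∀ x y, F' x y → x < N) ∧
      (∀ a b, F a b → F' a b) ∧ ∃ y, F' x y := by
  intro x
  induction x using Nat.strong_induction_on with
  | _ x ih =>
    intro F hF hfin
    by_cases hx0 : x = 0
    · subst hx0
      exact ⟨F, hF, hfin, fun _ _ h => h, 0, hF.root⟩
    obtain ⟨F1, hF1, hfin1, hsub, p, hp⟩ := ih _ (par_lt hx0) hF hfin
    by_cases hx : ∃ y, F1 x y
    · exact ⟨F1, hF1, hfin1, hsub, hx⟩
    have hE := hF1.ty _ _ hp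
    obtain ⟨i1, hi1⟩ := hE.step (idx x)
    obtain ⟨N, hN⟩ := hF1.fin
    obtain ⟨i', hi', hct⟩ := ct_inf (WA.ty r' p) i1 N
    have hy : N ≤ child i' p := by
      have := Nat.left_le_pair i' p
      unfold child
      omega
    refine ⟨fun a b => F1 a b ∨ (a = x ∧ b = child i' p), ?_, ?_, ?_, child i' p,
      Or.inr ⟨rfl, rfl⟩⟩
    · constructor
      · exact Or.inl hF1.root
      · rintro a b b' (h1 | ⟨rfl, rfl⟩) (h2 | ⟨h2, rfl⟩)
        · exact hF1.fn _ _ _ h1 h2
        · subst h2; exact absurd ⟨_, h1⟩ hx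
        · exact absurd ⟨_, h2⟩ hx
        · rfl
      · rintro a a' b (h1 | ⟨rfl, rfl⟩) (h2 | ⟨rfl, h2⟩)
        · exact hF1.inj _ _ _ h1 h2
        · subst h2
          have := hN _ _ h1
          omega
        · have := hN _ _ h2
          omega
        · rfl
      · rintro a b (h1 | ⟨rfl, rfl⟩)
        · exact Or.inl (hF1.par _ _ h1)
        · rw [par_child]
          exact Or.inl hp
      · rintro a b (h1 | ⟨rfl, rfl⟩)
        · exact hF1.ty _ _ h1
        · rw [ty_child, hct, ty_of_ne hx0]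
          exact hi1
      · refine ⟨max N (child i' p + 1), ?_⟩
        rintro a b (h1 | ⟨rfl, rfl⟩)
        · have := hN _ _ h1
          omega
        · omega
    · obtain ⟨K, hK⟩ := hfin1
      refine ⟨max K (x + 1), ?_⟩
      rintro a b (h1 | ⟨rfl, rfl⟩)
      · have := hK _ _ h1
        omega
      · omega
    · intro a b h
      exact Or.inl (hsub _ _ h)

/-- Extension by finitely many nodes. -/
theorem Pos.extendS {k : ℕ} {r r' : Ty} (A : Finset ℕ) : ∀ {F : ℕ → ℕ → Prop}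
    (_ : Pos (k + 1) r r' F) (_ : ∃ N, ∀ x y, F x y → x < N),
    ∃ F' : ℕ → ℕ → Prop, Pos (k + 1) r r' F' ∧ (∃ N, ∀ x y, F' x y → x < N) ∧
      (∀ a b, F a b → F' a b) ∧ ∀ x ∈ A, ∃ y, F' x y := by
  classical
  induction A using Finset.induction_on with
  | empty =>
    intro F h h'
    exact ⟨F, h, h', fun _ _ h => h, by simp⟩
  | insert a A _ ih =>
    intro F h h'
    obtain ⟨F1, h1, h1', hs1, hA⟩ := ih h h'
    obtain ⟨F2, h2, h2', hs2, ha⟩ := h1.extend a h1'
    refine ⟨F2, h2, h2', fun a b h => hs2 _ _ (hs1 _ _ h), ?_⟩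
    intro x hx
    rcases Finset.mem_insert.mp hx with rfl | hx
    · exact ha
    · obtain ⟨y, hy⟩ := hA x hx
      exact ⟨y, hs2 _ _ hy⟩

/-- The relation between elements of the models given by a relation between nodes. -/
def G (F : ℕ → ℕ → Prop) : El → El → Prop
  | .inl n, .inl m => n = m
  | .inl _, .inr _ => False
  | .inr _, .inl _ => False
  | .inr A, .inr B => (∀ x ∈ A, ∃ y ∈ B, F x y) ∧ ∀ y ∈ B, ∃ x ∈ A, F x y

theorem G.mono {F F' : ℕ → ℕ → Prop} (h : ∀ a b, F a b → F' a b) {a b : El} (hG : G F a b) :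
    G F' a b := by
  rcases a with n | A <;> rcases b with m | B
  · exact hG
  · exact hG
  · exact hG
  · obtain ⟨h1, h2⟩ := hG
    refine ⟨fun x hx => ?_, fun y hy => ?_⟩
    · obtain ⟨y, hy, hxy⟩ := h1 x hx
      exact ⟨y, hy, h _ _ hxy⟩
    · obtain ⟨x, hx, hxy⟩ := h2 y hy
      exact ⟨x, hx, h _ _ hxy⟩

theorem G.flip {F : ℕ → ℕ → Prop} {a b : El} (hG : G F a b) : G (fun x y => F y x) b a := by
  rcases a with n | A <;> rcases b with m | B
  · exact (hG : n = m).symm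
  · exact hG
  · exact hG
  · exact ⟨hG.2, hG.1⟩

section
variable {k : ℕ} {r r' : Ty} {F : ℕ → ℕ → Prop} (hF : Pos k r r' F)
include hF

theorem G.subset {A B A' B' : Finset ℕ} (h : G F (.inr A) (.inr A')) (h' : G F (.inr B) (.inr B'))
    (hAB : A ⊆ B) : A' ⊆ B' := by
  intro y hy
  obtain ⟨x, hx, hxy⟩ := h.2 y hy
  obtain ⟨y', hy', hxy'⟩ := h'.1 x (hAB hx)
  rw [hF.fn _ _ _ hxy hxy']
  exact hy'

theorem G.subset' {A B A' B' : Finset ℕ} (h : G F (.inr A) (.inr A'))
    (h' : G F (.inr B) (.inr B')) (hAB : A' ⊆ B') : A ⊆ B := by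
  intro x hx
  obtain ⟨y, hy, hxy⟩ := h.1 x hx
  obtain ⟨x', hx', hxy'⟩ := h'.2 y (hAB hy)
  rw [hF.inj _ _ _ hxy hxy']
  exact hx'

theorem G.eq_iff {a b a' b' : El} (h : G F a a') (h' : G F b b') : a = b ↔ a' = b' := by
  rcases a with n | A <;> rcases a' with n' | A' <;> rcases b with m | B <;>
    rcases b' with m' | B' <;> try (simp only [G] at h h')
  · subst h; subst h'; simp
  · simp
  · simp
  · constructor
    · intro h1
      simp only [Sum.inr.injEq] at h1 ⊢
      subst h1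
      exact subset_antisymm (G.subset hF h h' subset_rfl) (G.subset hF h' h subset_rfl)
    · intro h1
      simp only [Sum.inr.injEq] at h1 ⊢
      subst h1
      exact subset_antisymm (G.subset' hF h h' subset_rfl) (G.subset' hF h' h subset_rfl)

theorem G.lt_iff {a b a' b' : El} (h : G F a a') (h' : G F b b') : ltM a b ↔ ltM a' b' := by
  rcases a with n | A <;> rcases a' with n' | A' <;> rcases b with m | B <;>
    rcases b' with m' | B' <;> try (simp only [G] at h h')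
  · subst h; subst h'; simp [ltM]
  · simp [ltM]
  · simp [ltM]
  · exact ⟨G.subset hF h h', G.subset' hF h h'⟩

theorem G.add {a b a' b' : El} (h : G F a a') (h' : G F b b') : G F (addM a b) (addM a' b') := by
  rcases a with n | A <;> rcases a' with n' | A' <;> rcases b with m | B <;>
    rcases b' with m' | B' <;> try (simp only [G] at h h')
  · subst h; subst h'; simp [addM, G]
  · exact h'
  · exact h
  · simp only [addM, G, Finset.mem_union]
    constructor
    · rintro x (hx | hx)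
      · obtain ⟨y, hy, hxy⟩ := h.1 x hx
        exact ⟨y, Or.inl hy, hxy⟩
      · obtain ⟨y, hy, hxy⟩ := h'.1 x hx
        exact ⟨y, Or.inr hy, hxy⟩
    · rintro x (hx | hx)
      · obtain ⟨y, hy, hxy⟩ := h.2 x hx
        exact ⟨y, Or.inl hy, hxy⟩
      · obtain ⟨y, hy, hxy⟩ := h'.2 x hx
        exact ⟨y, Or.inr hy, hxy⟩

theorem G.single {A A' : Finset ℕ} (h : G F (.inr A) (.inr A')) {k : ℕ} (hk : A = {k}) :
    ∃ k', A' = {k'} ∧ F k k' := by
  subst hk
  obtain ⟨k', hk', hkk⟩ := h.1 k (Finset.mem_singleton_self k)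
  refine ⟨k', ?_, hkk⟩
  apply Finset.eq_singleton_iff_unique_mem.mpr
  refine ⟨hk', ?_⟩
  intro y hy
  obtain ⟨x, hx, hxy⟩ := h.2 y hy
  rw [Finset.mem_singleton] at hx
  subst hx
  exact hF.fn _ _ _ hxy hkk

theorem G.single' {A A' : Finset ℕ} (h : G F (.inr A) (.inr A')) {k' : ℕ} (hk : A' = {k'}) :
    ∃ k, A = {k} ∧ F k k' := by
  subst hk
  obtain ⟨k, hk, hkk⟩ := h.2 k' (Finset.mem_singleton_self k')
  refine ⟨k, ?_, hkk⟩
  apply Finset.eq_singleton_iff_unique_mem.mpr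
  refine ⟨hk, ?_⟩
  intro x hx
  obtain ⟨y, hy, hxy⟩ := h.1 x hx
  rw [Finset.mem_singleton] at hy
  subst hy
  exact hF.inj _ _ _ hxy hkk

theorem G.singleton {k k' : ℕ} (h : F k k') : G F (.inr {k}) (.inr {k'}) := by
  simp only [G, Finset.mem_singleton]
  exact ⟨fun x hx => ⟨k', rfl, by rw [hx]; exact h⟩, fun y hy => ⟨k, rfl, by rw [hy]; exact h⟩⟩

theorem G.parS {A A' : Finset ℕ} (h : G F (.inr A) (.inr A')) :
    G F (.inr (parS A)) (.inr (parS A')) := by
  by_cases hA : ∃ k, A = {k}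
  · obtain ⟨k, hk⟩ := hA
    obtain ⟨k', hk', hkk⟩ := G.single hF h hk
    subst hk; subst hk'
    rw [parS_single, parS_single]
    exact G.singleton hF (hF.par _ _ hkk)
  · have hA' : ¬ ∃ k, A' = {k} := by
      rintro ⟨k', hk'⟩
      obtain ⟨k, hk, _⟩ := G.single' hF h hk'
      exact hA ⟨k, hk⟩
    rw [parS_not hA, parS_not hA']
    exact h

theorem G.labS {A A' : Finset ℕ} (h : G F (.inr A) (.inr A')) :
    G F (labS r A) (labS r' A') := by
  by_cases hA : ∃ k, A = {k}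
  · obtain ⟨k, hk⟩ := hA
    obtain ⟨k', hk', hkk⟩ := G.single hF h hk
    subst hk; subst hk'
    have hl := (hF.ty _ _ hkk).label
    by_cases hz : WA.ty r k = .z
    · rw [labS_pos hz, labS_pos (hl.mp hz)]
      exact h
    · rw [labS_neg hz, labS_neg (fun h => hz (hl.mpr h))]
      rfl
  · have hA' : ¬ ∃ k, A' = {k} := by
      rintro ⟨k', hk'⟩
      obtain ⟨k, hk, _⟩ := G.single' hF h hk'
      exact hA ⟨k, hk⟩
    rw [labS_not hA, labS_not hA']
    rfl

theorem G.mul {a b a' b' : El} (h : G F a a') (h' : G F b b') :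
    G F (mulM r a b) (mulM r' a' b') := by
  rcases a with n | A <;> rcases a' with n' | A' <;> rcases b with m | B <;>
    rcases b' with m' | B' <;> try (simp only [G] at h h')
  · subst h; subst h'; simp [mulM, G]
  · subst h
    rcases n with _ | n
    · exact G.labS hF h'
    · exact G.parS hF h'
  · subst h'
    rcases m with _ | m
    · simp [mulM, G]
    · exact h
  · exact G.add hF (a := .inr A) (b := .inr B) (a' := .inr A') (b' := .inr B') h h'

/-- lower elements are matched -/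
theorem G.zig {a b b' : El} (h : G F b b') (hab : ltM a b) : ∃ a', G F a a' := by
  classical
  rcases a with n | A
  · exact ⟨.inl n, rfl⟩
  · rcases b with m | B
    · exact hab.elim
    · rcases b' with m' | B'
      · exact h.elim
      · refine ⟨.inr (B'.filter fun y => ∃ x ∈ A, F x y), ?_, ?_⟩
        · intro x hx
          obtain ⟨y, hy, hxy⟩ := h.1 x (hab hx)
          exact ⟨y, Finset.mem_filter.mpr ⟨hy, x, hx, hxy⟩, hxy⟩
        · intro y hy
          exact (Finset.mem_filter.mp hy).2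

theorem G.zag {a' b b' : El} (h : G F b b') (hab : ltM a' b') : ∃ a, G F a a' := by
  classical
  rcases a' with n | A'
  · exact ⟨.inl n, rfl⟩
  · rcases b' with m | B'
    · exact hab.elim
    · rcases b with m' | B
      · exact h.elim
      · refine ⟨.inr (B.filter fun x => ∃ y ∈ A', F x y), ?_, ?_⟩
        · intro x hx
          exact (Finset.mem_filter.mp hx).2
        · intro y hy
          obtain ⟨x, hx, hxy⟩ := h.2 y (hab hy)
          exact ⟨x, Finset.mem_filter.mpr ⟨hx, y, hy, hxy⟩, hxy⟩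

theorem G.val {v v' : ℕ → El} (hv : ∀ i, G F (v i) (v' i)) (t : Tm) :
    G F (t.val (Mst r) v) (t.val (Mst r') v') := by
  induction t with
  | var i => exact hv i
  | zero => exact rfl
  | one => exact rfl
  | add s t ihs iht => exact G.add hF ihs iht
  | mul s t ihs iht => exact G.mul hF ihs iht

theorem G.update {v v' : ℕ → El} (hv : ∀ i, G F (v i) (v' i)) {a a' : El} (h : G F a a')
    (i : ℕ) : ∀ j, G F (Function.update v i a j) (Function.update v' i a' j) := by
  intro j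
  by_cases hj : j = i
  · subst hj; simpa using h
  · simpa [hj] using hv j

/-- `Δ₀` formulas are preserved. -/
theorem G.delta0 {φ : Fm} (hφ : Delta0 φ) : ∀ {v v' : ℕ → El} (_ : ∀ i, G F (v i) (v' i)),
    (Sat (Mst r) φ v ↔ Sat (Mst r') φ v') := by
  induction hφ with
  | eq s t =>
    intro v v' hv
    exact G.eq_iff hF (G.val hF hv s) (G.val hF hv t)
  | lt s t =>
    intro v v' hv
    exact G.lt_iff hF (G.val hF hv s) (G.val hF hv t)
  | neg _ ih =>
    intro v v' hv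
    exact not_congr (ih hv)
  | and _ _ ih1 ih2 =>
    intro v v' hv
    exact and_congr (ih1 hv) (ih2 hv)
  | @ball φ i t hi _ ih =>
    intro v v' hv
    have hsem : ∀ (s : Ty) (w : ℕ → El), Sat (Mst s) (.all i (.imp (.lt (.var i) t) φ)) w ↔
        ∀ a : El, ltM a (t.val (Mst s) w) → Sat (Mst s) φ (Function.update w i a) :=
      fun s w => sat_ball (Mst s) hi φ w
    rw [hsem, hsem]
    have ht := G.val hF hv t
    constructor
    · intro h a' ha'
      obtain ⟨a, ha⟩ := G.zag hF ht ha'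
      exact (ih (G.update hF hv ha i)).mp (h a ((G.lt_iff hF ha ht).mpr ha'))
    · intro h a ha
      obtain ⟨a', ha'⟩ := G.zig hF ht ha
      exact (ih (G.update hF hv ha' i)).mpr (h a' ((G.lt_iff hF ha' ht).mp ha))

end

/-- Extension by an element. -/
theorem Pos.extendE {k : ℕ} {r r' : Ty} {F : ℕ → ℕ → Prop} (hF : Pos (k + 1) r r' F)
    (hf : ∃ N, ∀ x y, F x y → x < N) (a : El) :
    ∃ F' : ℕ → ℕ → Prop, Pos (k + 1) r r' F' ∧ (∃ N, ∀ x y, F' x y → x < N) ∧
      (∀ a b, F a b → F' a b) ∧ ∃ a', G F' a a' := by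
  classical
  rcases a with n | A
  · exact ⟨F, hF, hf, fun _ _ h => h, .inl n, rfl⟩
  · obtain ⟨F', h1, h2, h3, h4⟩ := hF.extendS A hf
    refine ⟨F', h1, h2, h3, ?_⟩
    choose! g hg using h4
    refine ⟨.inr (A.image g), ?_, ?_⟩
    · intro x hx
      exact ⟨g x, Finset.mem_image_of_mem g hx, hg x hx⟩
    · intro y hy
      obtain ⟨x, hx, rfl⟩ := Finset.mem_image.mp hy
      exact ⟨x, hx, hg x hx⟩

/-- `Σₙ` formulas are preserved forwards, `Πₙ` formulas backwards. -/
theorem hier_pres {b : Bool} {n : ℕ} {φ : Fm} (hφ : Hier b n φ) :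
    ∀ {r r' : Ty} {F : ℕ → ℕ → Prop} (_ : Pos n r r' F) (_ : ∃ N, ∀ x y, F x y → x < N)
      {v v' : ℕ → El} (_ : ∀ i, G F (v i) (v' i)),
      (b = true → Sat (Mst r) φ v → Sat (Mst r') φ v') ∧
      (b = false → Sat (Mst r') φ v' → Sat (Mst r) φ v) := by
  induction hφ with
  | base b h =>
    intro r r' F hF hf v v' hv
    exact ⟨fun _ => (G.delta0 hF h hv).mp, fun _ => (G.delta0 hF h hv).mpr⟩
  | @up b n φ _ ih =>
    intro r r' F hF hf v v' hv
    have := ih (hF.flip hf) (by obtain ⟨N, hN⟩ := hF.fin; exact ⟨N, fun x y h => hN y x h⟩)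
      (fun i => (hv i).flip)
    constructor
    · rintro rfl
      exact this.2 rfl
    · rintro rfl
      exact this.1 rfl
  | @ex n φ i _ ih =>
    intro r r' F hF hf v v' hv
    refine ⟨fun _ => ?_, fun h => absurd h (by simp)⟩
    simp only [Fm.ex, Sat, not_forall, not_not]
    rintro ⟨a, ha⟩
    obtain ⟨F', hF', hf', hsub, a', ha'⟩ := hF.extendE hf a
    exact ⟨a', (ih hF' hf' (G.update hF' (fun i => (hv i).mono hsub) ha' i)).1 rfl ha⟩
  | @all n φ i _ ih =>
    intro r r' F hF hf v v' hv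
    refine ⟨fun h => absurd h (by simp), fun _ => ?_⟩
    intro h a
    obtain ⟨F', hF', hf', hsub, a', ha'⟩ := hF.extendE hf a
    exact (ih hF' hf' (G.update hF' (fun i => (hv i).mono hsub) ha' i)).2 rfl (h a')

/-- `Σₙ` sentences true in `Mst r` are true in `Mst r'` if `E n r r'`. -/
theorem sigma_pres {n : ℕ} {r r' : Ty} (h : E n r r') {φ : Fm} (hφ : Hier true n φ)
    (v : ℕ → El) (hv : ∀ i, v i = .inl 0) (hs : Sat (Mst r) φ v) : Sat (Mst r') φ v := by
  have hF : Pos n r r' (fun x y => x = 0 ∧ y = 0) := by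
    constructor
    · exact ⟨rfl, rfl⟩
    · rintro x y y' ⟨_, rfl⟩ ⟨_, rfl⟩; rfl
    · rintro x x' y ⟨rfl, _⟩ ⟨rfl, _⟩; rfl
    · rintro x y ⟨rfl, rfl⟩
      exact ⟨par_zero, par_zero⟩
    · rintro x y ⟨rfl, rfl⟩
      rw [ty_zero, ty_zero]
      exact h
    · exact ⟨1, by rintro x y ⟨_, rfl⟩; omega⟩
  refine (hier_pres hφ hF ⟨1, by rintro x y ⟨rfl, _⟩; omega⟩ ?_).1 rfl hs
  intro i
  rw [hv i]
  rfl

end Q204.WA
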