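import Pool.Agent.Q204.WA.Defs

/-!
# The models `ℕ ∪ {∞_A : A a finite set of nodes of a typed tree}`
-/

namespace Q204.WA

/-- Types of nodes. -/
inductive Ty : Type
  | z : Ty
  | u (j : ℕ) : Ty
  | v (j : ℕ) : Ty
  | rho : Ty
  | rhoV (m : ℕ) : Ty
deriving DecidableEq

/-- The type of the `i`-th child of a node. -/
def ct : Ty → ℕ → Ty
  | .z, _ => .u 0
  | .u 0, _ => .u 0
  | .u (j + 1), _ => .v j
  | .v 0, i => if i % 2 = 0 then .u 0 else .z
  | .v (j + 1), i => if i % 2 = 0 then .u j else .v j
  | .rho, i => .u (Nat.unpair i).1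
  | .rhoV m, i => if i % 2 = 0 then .u (Nat.unpair (i / 2)).1 else .v m

/-- The parent of a node; the nodes are the natural numbers, the root is `0`, and the `i`-th child
of `k` is `pair i k + 1`. -/
def par (k : ℕ) : ℕ := (Nat.unpair (k - 1)).2

theorem par_zero : par 0 = 0 := by simp [par]

theorem par_lt {k : ℕ} (h : k ≠ 0) : par k < k := by
  unfold par
  have := Nat.unpair_right_le (k - 1)
  omega

/-- The index of a node among its siblings. -/
def idx (k : ℕ) : ℕ := (Nat.unpair (k - 1)).1

/-- The `i`-th child of `k`. -/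
def child (i k : ℕ) : ℕ := Nat.pair i k + 1

theorem par_child (i k : ℕ) : par (child i k) = k := by simp [par, child]
theorem idx_child (i k : ℕ) : idx (child i k) = i := by simp [idx, child]
theorem child_idx_par {k : ℕ} (h : k ≠ 0) : child (idx k) (par k) = k := by
  unfold child idx par
  rw [Nat.pair_unpair]
  omega

theorem child_ne_zero (i k : ℕ) : child i k ≠ 0 := by simp [child]

/-- The type of a node of the tree with root of type `r`. -/
def ty (r : Ty) (k : ℕ) : Ty :=
  if h : k = 0 then r else
    have : par k < k := par_lt h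
    ct (ty r (par k)) (idx k)
termination_by k

theorem ty_zero (r : Ty) : ty r 0 = r := by
  rw [ty]; simp

theorem ty_of_ne {r : Ty} {k : ℕ} (h : k ≠ 0) : ty r k = ct (ty r (par k)) (idx k) := by
  conv_lhs => rw [ty]
  simp [h]

theorem ty_child (r : Ty) (i k : ℕ) : ty r (child i k) = ct (ty r k) i := by
  rw [ty_of_ne (child_ne_zero i k), par_child, idx_child]

/-- the universe of the models -/
abbrev El := ℕ ⊕ Finset ℕ

/-- `parS A` replaces a singleton by the singleton of the parent. -/
noncomputable def parS (A : Finset ℕ) : Finset ℕ := by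
  classical
  exact if h : ∃ k, A = {k} then {par h.choose} else A

theorem parS_single (k : ℕ) : parS {k} = {par k} := by
  unfold parS
  have h : ∃ l, ({k} : Finset ℕ) = {l} := ⟨k, rfl⟩
  rw [dif_pos h]
  have := h.choose_spec
  rw [Finset.singleton_inj] at this
  rw [← this]

theorem parS_not {A : Finset ℕ} (h : ¬ ∃ k, A = {k}) : parS A = A := by
  unfold parS
  rw [dif_neg h]

/-- `0 · ∞_A`, which records the label of the node if `A` is a singleton. -/
noncomputable def labS (r : Ty) (A : Finset ℕ) : El := by
  classical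
  exact if ∃ k, A = {k} ∧ ty r k = Ty.z then Sum.inr A else Sum.inl 0

theorem labS_pos {r : Ty} {k : ℕ} (h : ty r k = Ty.z) : labS r {k} = Sum.inr {k} := by
  unfold labS
  rw [if_pos ⟨k, rfl, h⟩]

theorem labS_neg {r : Ty} {k : ℕ} (h : ty r k ≠ Ty.z) : labS r {k} = Sum.inl 0 := by
  unfold labS
  rw [if_neg]
  rintro ⟨l, hl, h2⟩
  rw [Finset.singleton_inj] at hl
  subst hl
  exact h h2

theorem labS_not {r : Ty} {A : Finset ℕ} (h : ¬ ∃ k, A = {k}) : labS r A = Sum.inl 0 := by
  unfold labS
  rw [if_neg]
  rintro ⟨l, hl, _⟩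
  exact h ⟨l, hl⟩

/-- addition -/
def addM : El → El → El
  | .inl n, .inl m => .inl (n + m)
  | .inl _, .inr A => .inr A
  | .inr A, .inl _ => .inr A
  | .inr A, .inr B => .inr (A ∪ B)

/-- multiplication -/
noncomputable def mulM (r : Ty) : El → El → El
  | .inl n, .inl m => .inl (n * m)
  | .inl 0, .inr A => labS r A
  | .inl (_ + 1), .inr A => .inr (parS A)
  | .inr _, .inl 0 => .inl 0
  | .inr A, .inl (_ + 1) => .inr A
  | .inr A, .inr B => .inr (A ∪ B)

/-- order -/
def ltM : El → El → Prop
  | .inl n, .inl m => n < m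
  | .inl _, .inr _ => True
  | .inr _, .inl _ => False
  | .inr A, .inr B => A ⊆ B

/-- The model with root of type `r`. -/
noncomputable def Mst (r : Ty) : Str := ⟨El, .inl 0, .inl 1, addM, mulM r, ltM⟩

theorem ltM_iff (x y : El) : ltM x y ↔ ∃ z, addM x (addM z (.inl 1)) = y := by
  rcases x with n | A <;> rcases y with m | B
  · simp only [ltM]
    constructor
    · intro h
      exact ⟨.inl (m - n - 1), by simp only [addM]; congr 1; omega⟩
    · rintro ⟨z | C, h⟩
      · simp only [addM, Sum.inl.injEq] at h
        omega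
      · simp [addM] at h
  · simp only [ltM, true_iff]
    exact ⟨.inr B, rfl⟩
  · simp only [ltM, false_iff]
    rintro ⟨z | C, h⟩ <;> simp [addM] at h
  · simp only [ltM]
    constructor
    · intro h
      refine ⟨.inr B, ?_⟩
      simp only [addM]
      rw [Finset.union_eq_right.mpr h]
    · rintro ⟨z | C, h⟩
      · simp only [addM, Sum.inr.injEq] at h
        rw [h]
      · simp only [addM, Sum.inr.injEq] at h
        rw [← h]
        exact Finset.subset_union_left

theorem addM_comm (x y : El) : addM x y = addM y x := by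
  rcases x with n | A <;> rcases y with m | B
  · simp [addM, add_comm]
  · rfl
  · rfl
  · simp [addM, Finset.union_comm]

theorem models_Q_of (M : Str) (h0 : M.add M.zero M.one = M.one)
    (h1 : ∀ a, M.add a M.one ≠ M.zero)
    (h2 : ∀ a b, M.add a M.one = M.add b M.one → a = b)
    (h3 : ∀ a, a ≠ M.zero → ∃ b, a = M.add b M.one)
    (h4 : ∀ a, M.add a M.zero = a)
    (h5 : ∀ a b, M.add a (M.add b M.one) = M.add (M.add a b) M.one)
    (h6 : ∀ a, M.mul a M.zero = M.zero)
    (h7 : ∀ a b, M.mul a (M.add b M.one) = M.add (M.mul a b) a)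
    (h8 : ∀ a b, M.lt a b ↔ ∃ c, M.add a (M.add c M.one) = b)
    (h9 : ∀ a b, M.lt a b ↔ ∃ c, M.add (M.add c M.one) a = b) : Models M QAx := by
  intro φ hφ v
  simp only [QAx, Set.mem_insert_iff, Set.mem_singleton_iff] at hφ
  rcases hφ with rfl | rfl | rfl | rfl | rfl | rfl | rfl | rfl | rfl | rfl
  · simpa [Sat, Tm.val] using h0
  · simpa [Sat, Tm.val] using h1
  · simpa [Sat, Tm.val, Fm.imp] using h2
  · simpa [Sat, Tm.val, Fm.imp, Fm.ex] using h3
  · simpa [Sat, Tm.val] using h4
  · simpa [Sat, Tm.val] using h5
  · simpa [Sat, Tm.val] using h6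
  · simpa [Sat, Tm.val] using h7
  · intro a b
    have := h8 a b
    simp only [Fm.iff, Fm.imp, Fm.ex, Sat, Tm.val]
    simp only [Function.update_apply]
    simp
    exact ⟨fun h => this.mp h, fun c h => this.mpr ⟨c, h⟩⟩
  · intro a b
    have := h9 a b
    simp only [Fm.iff, Fm.imp, Fm.ex, Sat, Tm.val]
    simp only [Function.update_apply]
    simp
    exact ⟨fun h => this.mp h, fun c h => this.mpr ⟨c, h⟩⟩

/-- The models satisfy Robinson arithmetic. -/
theorem models_Q (r : Ty) : Models (Mst r) QAx := by
  apply models_Q_of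
  · rfl
  · intro a
    change addM a (.inl 1) ≠ .inl 0
    rcases a with n | A <;> simp [addM]
  · intro a b
    change addM a (.inl 1) = addM b (.inl 1) → a = b
    intro h
    rcases a with n | A <;> rcases b with m | B <;> simp [addM] at h <;> subst h <;> rfl
  · intro a
    change a ≠ .inl 0 → ∃ b, a = addM b (.inl 1)
    intro h
    rcases a with n | A
    · rcases n with _ | n
      · exact absurd rfl h
      · exact ⟨.inl n, rfl⟩
    · exact ⟨.inr A, rfl⟩
  · intro a
    change addM a (.inl 0) = a
    rcases a with n | A <;> simp [addM]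
  · intro a b
    change addM a (addM b (.inl 1)) = addM (addM a b) (.inl 1)
    rcases a with n | A <;> rcases b with m | B <;> simp [addM, add_assoc]
  · intro a
    change mulM r a (.inl 0) = .inl 0
    rcases a with n | A <;> simp [mulM]
  · intro a b
    change mulM r a (addM b (.inl 1)) = addM (mulM r a b) a
    rcases a with n | A <;> rcases b with m | B
    · simp [addM, mulM, Nat.mul_add]
    · rcases n with _ | n
      · simp only [addM, mulM]
        rcases labS r B with m | C <;> simp
      · simp [addM, mulM]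
    · rcases m with _ | m <;> simp [addM, mulM]
    · simp only [addM, mulM, Sum.inr.injEq]
      apply Finset.ext
      intro x
      simp only [Finset.mem_union]
      tauto
  · intro a b
    exact ltM_iff a b
  · intro a b
    change ltM a b ↔ ∃ c, addM (addM c (.inl 1)) a = b
    simp only [addM_comm _ a]
    exact ltM_iff a b

end Q204.WA
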