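import Pool.Agent.Q204.WA.Comp

/-!
# The isomorphism with the computable presentation
-/

namespace Q204.WA

/-- binary code of a finite set -/
def bin (A : Finset ℕ) : ℕ := Finset.equivBitIndices.symm A

theorem bin_inj {A B : Finset ℕ} (h : bin A = bin B) : A = B :=
  Finset.equivBitIndices.symm.injective h

theorem bin_surj (n : ℕ) : ∃ A, bin A = n := Finset.equivBitIndices.symm.surjective n

theorem bin_single (k : ℕ) : bin {k} = 2 ^ k := by simp [bin]

theorem mem_bin (A : Finset ℕ) (i : ℕ) : (bin A).testBit i = true ↔ i ∈ A := by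
  rw [← Nat.mem_bitIndices]
  have h : Finset.equivBitIndices (bin A) = A := Finset.equivBitIndices.apply_symm_apply A
  have h2 : (bin A).bitIndices.toFinset = A := h
  rw [← List.mem_toFinset, h2]

theorem bin_union (A B : Finset ℕ) : bin (A ∪ B) = bin A ||| bin B := by
  apply Nat.eq_of_testBit_eq
  intro i
  rw [Nat.testBit_or, Bool.eq_iff_iff, Bool.or_eq_true, mem_bin, mem_bin, mem_bin,
    Finset.mem_union]

theorem bin_single_iff (A : Finset ℕ) (k : ℕ) : A = {k} ↔ bin A = 2 ^ k := by
  rw [← bin_single]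
  exact ⟨fun h => by rw [h], fun h => bin_inj h⟩

theorem lg_bin {A : Finset ℕ} : 2 ^ lg (bin A) = bin A ↔ ∃ k, A = {k} := by
  constructor
  · intro h
    exact ⟨lg (bin A), (bin_single_iff _ _).mpr h.symm⟩
  · rintro ⟨k, rfl⟩
    rw [bin_single, lg_pow]

/-- the code of an element -/
def enc : El → ℕ
  | .inl n => 2 * n
  | .inr A => 2 * bin A + 1

theorem enc_bij : Function.Bijective enc := by
  constructor
  · rintro (n | A) (m | B) h
    · simp only [enc] at h
      congr 1; omega
    · simp only [enc] at h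
      omega
    · simp only [enc] at h
      omega
    · simp only [enc] at h
      congr 1
      exact bin_inj (by omega)
  · intro n
    rcases Nat.mod_two_eq_zero_or_one n with h | h
    · exact ⟨.inl (n / 2), by simp only [enc]; omega⟩
    · obtain ⟨A, hA⟩ := bin_surj (n / 2)
      exact ⟨.inr A, by simp only [enc, hA]; omega⟩

theorem enc_inl_mod (n : ℕ) : (2 * n) % 2 = 0 := by omega
theorem enc_inr_mod (n : ℕ) : ¬ (2 * n + 1) % 2 = 0 := by omega

theorem addN_ee (n m : ℕ) : addN (2 * n) (2 * m) = 2 * (n + m) := by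
  unfold addN
  rw [if_pos (enc_inl_mod n), if_pos (enc_inl_mod m)]; ring

theorem addN_eo (n b : ℕ) : addN (2 * n) (2 * b + 1) = 2 * b + 1 := by
  unfold addN
  rw [if_pos (enc_inl_mod n), if_neg (enc_inr_mod _)]

theorem addN_oe (a m : ℕ) : addN (2 * a + 1) (2 * m) = 2 * a + 1 := by
  unfold addN
  rw [if_neg (enc_inr_mod _), if_pos (enc_inl_mod m)]

theorem addN_oo (a b : ℕ) : addN (2 * a + 1) (2 * b + 1) = 2 * (a ||| b) + 1 := by
  unfold addN
  have h1 : (2 * a + 1) / 2 = a := by omega
  have h2 : (2 * b + 1) / 2 = b := by omega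
  rw [if_neg (enc_inr_mod _), if_neg (enc_inr_mod _), h1, h2]

theorem mulN_ee (n m : ℕ) : mulN (2 * n) (2 * m) = 2 * (n * m) := by
  unfold mulN
  have : 2 * m / 2 = m := by omega
  rw [if_pos (enc_inl_mod n), if_pos (enc_inl_mod m), this]; ring

theorem mulN_zo (b : ℕ) : mulN 0 (2 * b + 1) = labN b := by
  unfold mulN
  have h2 : (2 * b + 1) / 2 = b := by omega
  rw [if_pos (by omega), if_neg (enc_inr_mod _), if_pos rfl, h2]

theorem mulN_eo (n b : ℕ) : mulN (2 * (n + 1)) (2 * b + 1) = 2 * parN b + 1 := by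
  unfold mulN
  have h2 : (2 * b + 1) / 2 = b := by omega
  rw [if_pos (by omega), if_neg (enc_inr_mod _), if_neg (by omega), h2]

theorem mulN_oz (a : ℕ) : mulN (2 * a + 1) 0 = 0 := by
  unfold mulN
  rw [if_neg (enc_inr_mod _), if_pos (by omega), if_pos rfl]

theorem mulN_oe (a m : ℕ) : mulN (2 * a + 1) (2 * (m + 1)) = 2 * a + 1 := by
  unfold mulN
  rw [if_neg (enc_inr_mod _), if_pos (by omega), if_neg (by omega)]

theorem mulN_oo (a b : ℕ) : mulN (2 * a + 1) (2 * b + 1) = 2 * (a ||| b) + 1 := by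
  unfold mulN
  have h1 : (2 * a + 1) / 2 = a := by omega
  have h2 : (2 * b + 1) / 2 = b := by omega
  rw [if_neg (enc_inr_mod _), if_neg (enc_inr_mod _), h1, h2]

theorem ltN_ee (n m : ℕ) : ltN (2 * n) (2 * m) ↔ n < m := by
  unfold ltN
  have h1 := enc_inl_mod n
  have h2 := enc_inl_mod m
  constructor
  · rintro (⟨_, h | h⟩ | ⟨h, _⟩)
    · exact absurd h2 h
    · omega
    · exact absurd h1 h
  · intro h
    exact Or.inl ⟨h1, Or.inr (by omega)⟩

theorem ltN_eo (n b : ℕ) : ltN (2 * n) (2 * b + 1) := by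
  unfold ltN
  exact Or.inl ⟨enc_inl_mod n, Or.inl (enc_inr_mod b)⟩

theorem ltN_oe (a m : ℕ) : ¬ ltN (2 * a + 1) (2 * m) := by
  unfold ltN
  rintro (⟨h, _⟩ | ⟨_, h, _⟩)
  · exact enc_inr_mod _ h
  · exact h (enc_inl_mod m)

theorem ltN_oo (a b : ℕ) : ltN (2 * a + 1) (2 * b + 1) ↔ a ||| b = b := by
  unfold ltN
  have h1 : (2 * a + 1) / 2 = a := by omega
  have h2 : (2 * b + 1) / 2 = b := by omega
  rw [h1, h2]
  constructor
  · rintro (⟨h, _⟩ | ⟨_, _, h⟩)
    · exact absurd h (enc_inr_mod _)
    · exact h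
  · intro h
    exact Or.inr ⟨enc_inr_mod _, enc_inr_mod _, h⟩

theorem enc_add (a b : El) : enc (addM a b) = addN (enc a) (enc b) := by
  rcases a with n | A <;> rcases b with m | B
  · exact (addN_ee n m).symm
  · exact (addN_eo n (bin B)).symm
  · exact (addN_oe (bin A) m).symm
  · change 2 * bin (A ∪ B) + 1 = addN (2 * bin A + 1) (2 * bin B + 1)
    rw [addN_oo, bin_union]

theorem bin_par (A : Finset ℕ) : bin (parS A) = parN (bin A) := by
  unfold parN
  by_cases h : ∃ k, A = {k}
  · rw [if_pos (lg_bin.mpr h)]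
    obtain ⟨k, rfl⟩ := h
    rw [parS_single, bin_single, bin_single, lg_pow]
  · rw [if_neg (fun h' => h (lg_bin.mp h')), parS_not h]

theorem enc_lab (A : Finset ℕ) : enc (labS .rho A) = labN (bin A) := by
  unfold labN
  by_cases h : ∃ k, A = {k}
  · obtain ⟨k, rfl⟩ := h
    have h1 : 2 ^ lg (bin {k}) = bin {k} := lg_bin.mpr ⟨k, rfl⟩
    by_cases hz : ty .rho k = .z
    · rw [labS_pos hz, if_pos]
      · rfl
      · refine ⟨h1, ?_⟩
        rw [bin_single, lg_pow, tyN_zero_iff]
        exact hz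
    · rw [labS_neg hz, if_neg]
      · rfl
      · rintro ⟨_, h2⟩
        rw [bin_single, lg_pow, tyN_zero_iff] at h2
        exact hz h2
  · rw [labS_not h, if_neg]
    · rfl
    · rintro ⟨h1, _⟩
      exact h (lg_bin.mp h1)

theorem enc_mul (a b : El) : enc (mulM .rho a b) = mulN (enc a) (enc b) := by
  rcases a with n | A <;> rcases b with m | B
  · exact (mulN_ee n m).symm
  · rcases n with _ | n
    · change enc (labS .rho B) = mulN 0 (2 * bin B + 1)
      rw [mulN_zo]
      exact enc_lab B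
    · change 2 * bin (parS B) + 1 = mulN (2 * (n + 1)) (2 * bin B + 1)
      rw [mulN_eo, bin_par]
  · rcases m with _ | m
    · exact (mulN_oz (bin A)).symm
    · exact (mulN_oe (bin A) m).symm
  · change 2 * bin (A ∪ B) + 1 = mulN (2 * bin A + 1) (2 * bin B + 1)
    rw [mulN_oo, bin_union]

theorem enc_lt (a b : El) : ltM a b ↔ ltN (enc a) (enc b) := by
  rcases a with n | A <;> rcases b with m | B
  · exact (ltN_ee n m).symm
  · exact ⟨fun _ => ltN_eo n (bin B), fun _ => trivial⟩
  · exact ⟨fun h => h.elim, fun h => ltN_oe (bin A) m h⟩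
  · change A ⊆ B ↔ ltN (2 * bin A + 1) (2 * bin B + 1)
    rw [ltN_oo, ← bin_union, ← Finset.union_eq_right]
    exact ⟨fun h => by rw [h], fun h => bin_inj h⟩

/-- The computable presentation of the model. -/
noncomputable def Mrec : Str := natStr 0 2 addN mulN ltN

/-- The presentation is isomorphic to the model. -/
noncomputable def encIso : Iso (Mst .rho) Mrec where
  e := Equiv.ofBijective enc enc_bij
  zero := rfl
  one := rfl
  add := enc_add
  mul := enc_mul
  lt := enc_lt

theorem Iso.val {M N : Str} (f : Iso M N) (t : Tm) (v : ℕ → M.carrier) :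
    f.e (t.val M v) = t.val N (fun i => f.e (v i)) := by
  induction t with
  | var i => rfl
  | zero => exact f.zero
  | one => exact f.one
  | add s t ihs iht => simp only [Tm.val, f.add, ihs, iht]
  | mul s t ihs iht => simp only [Tm.val, f.mul, ihs, iht]

theorem Iso.sat {M N : Str} (f : Iso M N) (φ : Fm) : ∀ v : ℕ → M.carrier,
    (Sat M φ v ↔ Sat N φ (fun i => f.e (v i))) := by
  induction φ with
  | eq s t =>
    intro v
    simp only [Sat, ← f.val]
    exact f.e.injective.eq_iff.symm
  | lt s t =>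
    intro v
    simp only [Sat, ← f.val]
    exact f.lt _ _
  | neg φ ih =>
    intro v
    exact not_congr (ih v)
  | and φ ψ ih1 ih2 =>
    intro v
    exact and_congr (ih1 v) (ih2 v)
  | all i φ ih =>
    intro v
    have hup : ∀ a, (fun j => f.e (Function.update v i a j)) =
        Function.update (fun j => f.e (v j)) i (f.e a) := by
      intro a
      funext j
      by_cases hj : j = i
      · subst hj; simp
      · simp [hj]
    constructor
    · intro h b
      have := (ih _).mp (h (f.e.symm b))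
      rwa [hup, Equiv.apply_symm_apply] at this
    · intro h a
      refine (ih _).mpr ?_
      rw [hup]
      exact h _

theorem Iso.holds {M N : Str} (f : Iso M N) {φ : Fm} (h : Holds M φ) : Holds N φ := by
  intro w
  have h1 := (f.sat φ (fun i => f.e.symm (w i))).mp (h _)
  simpa using h1

theorem Mrec_models : Models Mrec (Th (Mst .rho)) := fun _ hφ => encIso.holds hφ.2

theorem Mrec_nonstandard : ¬ Nonempty (Iso Mrec Nstd) := by
  rintro ⟨f⟩
  -- the element `1 = ∞_∅` satisfies `x + 1 = x`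
  have h1 : addN 1 2 = 1 := by decide
  have h2 := f.add (1 : ℕ) (2 : ℕ)
  have h3 : f.e (2 : ℕ) = (1 : ℕ) := f.one
  have h4 : Mrec.add (1 : ℕ) (2 : ℕ) = (1 : ℕ) := h1
  rw [h4, h3] at h2
  have h6 : ∀ a : ℕ, a = a + 1 → False := fun a h => absurd h (Nat.succ_ne_self _).symm
  exact h6 (f.e (1 : ℕ)) h2

theorem notMem_Tnrec : Th (Mst .rho) ∉ Tnrec := by
  rintro ⟨_, h⟩
  exact Mrec_nonstandard (h 0 2 addN mulN ltN prim_addN.to_comp prim_mulN.to_comp
    prim_ltN.computablePred Mrec_models)

end Q204.WA
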