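import Pool.Agent.Q204.WA.Game

/-!
# Sentences distinguishing the models
-/

namespace Q204.WA

/-- `v_i` is a child of `v_j`. -/
def childF (i j : ℕ) : Fm :=
  .and (.eq (.mul .one (.var i)) (.var j)) (.neg (.eq (.var i) (.var j)))

/-- The formulas `θₙ`, with free variable `v_k`. -/
def theta : ℕ → ℕ → Fm
  | 0, k => .all (k + 1) (.imp (childF (k + 1) k) (.eq (.mul .zero (.var (k + 1))) .zero))
  | n + 1, k => .all (k + 1) (.imp (childF (k + 1) k) (.neg (theta n (k + 1))))

/-- The meaning of `θₙ` for types. -/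
def Theta : ℕ → Ty → Prop
  | 0, s => ∀ i, ct s i ≠ .z
  | n + 1, s => ∀ i, ¬ Theta n (ct s i)

/-- `Ψₙ`: all children of the root satisfy `θₙ`. -/
def psi (n : ℕ) : Fm :=
  .all 0 (.all 1 (.imp (.eq (.mul .one (.var 0)) (.var 0)) (.imp (childF 1 0) (theta n 1))))

theorem mul_one_eq (r : Ty) (x : El) : mulM r (.inl 1) x =
    match x with
    | .inl n => .inl n
    | .inr A => .inr (parS A) := by
  rcases x with n | A
  · simp [mulM]
  · rfl

theorem child_sem (r : Ty) (x y : El) (h1 : mulM r (.inl 1) y = x) (h2 : y ≠ x) :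
    ∃ i k, x = .inr {k} ∧ y = .inr {child i k} := by
  rw [mul_one_eq] at h1
  rcases y with n | B
  · exact absurd h1 h2
  · simp only at h1
    by_cases hB : ∃ l, B = {l}
    · obtain ⟨l, rfl⟩ := hB
      rw [parS_single] at h1
      have hl : l ≠ 0 := by
        rintro rfl
        rw [par_zero] at h1
        exact h2 h1
      exact ⟨idx l, par l, h1.symm, by rw [child_idx_par hl]⟩
    · rw [parS_not hB] at h1
      exact absurd h1 h2

theorem child_sem' (r : Ty) (i k : ℕ) : mulM r (.inl 1) (.inr {child i k}) = .inr {k} ∧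
    (Sum.inr {child i k} : El) ≠ .inr {k} := by
  rw [mul_one_eq]
  simp only [parS_single, par_child, true_and]
  intro h
  rw [Sum.inr.injEq, Finset.singleton_inj] at h
  have := Nat.right_le_pair i k
  unfold child at h
  omega

theorem sat_childF {M : Str} {i j : ℕ} {v : ℕ → M.carrier} : Sat M (childF i j) v ↔
    M.mul M.one (v i) = v j ∧ v i ≠ v j := Iff.rfl

theorem sat_imp {M : Str} {φ ψ : Fm} {v : ℕ → M.carrier} : Sat M (.imp φ ψ) v ↔
    (Sat M φ v → Sat M ψ v) := by
  simp only [Fm.imp, Sat, not_and, not_not]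

theorem sat_ex {M : Str} {φ : Fm} {i : ℕ} {v : ℕ → M.carrier} : Sat M (.ex i φ) v ↔
    ∃ a, Sat M φ (Function.update v i a) := by
  simp only [Fm.ex, Sat, not_forall, not_not]

theorem sat_iff {M : Str} {φ ψ : Fm} {v : ℕ → M.carrier} : Sat M (.iff φ ψ) v ↔
    (Sat M φ v ↔ Sat M ψ v) := by
  change Sat M (.imp φ ψ) v ∧ Sat M (.imp ψ φ) v ↔ _
  rw [sat_imp, sat_imp]
  exact ⟨fun h => ⟨h.1, h.2⟩, fun h => ⟨h.1, h.2⟩⟩

theorem theta0_sem (M : Str) (k : ℕ) (v : ℕ → M.carrier) : Sat M (theta 0 k) v ↔
    ∀ y, M.mul M.one y = v k → y ≠ v k → M.mul M.zero y = M.zero := by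
  refine forall_congr' fun y => ?_
  rw [sat_imp, sat_childF]
  simp only [Sat, Tm.val, Function.update_self]
  rw [Function.update_of_ne (by omega : k ≠ k + 1)]
  exact ⟨fun h h1 h2 => h ⟨h1, h2⟩, fun h h1 => h h1.1 h1.2⟩

theorem thetaS_sem (M : Str) (n k : ℕ) (v : ℕ → M.carrier) : Sat M (theta (n + 1) k) v ↔
    ∀ y, M.mul M.one y = v k → y ≠ v k →
      ¬ Sat M (theta n (k + 1)) (Function.update v (k + 1) y) := by
  refine forall_congr' fun y => ?_
  rw [sat_imp, sat_childF]
  simp only [Function.update_self]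
  rw [Function.update_of_ne (by omega : k ≠ k + 1)]
  exact ⟨fun h h1 h2 => h ⟨h1, h2⟩, fun h h1 => h h1.1 h1.2⟩

theorem psi_gen (M : Str) (n : ℕ) (v : ℕ → M.carrier) : Sat M (psi n) v ↔
    ∀ x y, M.mul M.one x = x → M.mul M.one y = x → y ≠ x →
      Sat M (theta n 1) (Function.update (Function.update v 0 x) 1 y) := by
  refine forall_congr' fun x => forall_congr' fun y => ?_
  rw [sat_imp, sat_imp, sat_childF]
  simp only [Sat, Tm.val, Function.update_self]
  rw [Function.update_of_ne (by omega : (0 : ℕ) ≠ 1), Function.update_self]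
  exact ⟨fun h h0 h1 h2 => h h0 ⟨h1, h2⟩, fun h h0 h1 => h h0 h1.1 h1.2⟩

theorem theta_sem (r : Ty) (n : ℕ) : ∀ (k l : ℕ) (v : ℕ → El), v k = .inr {l} →
    (Sat (Mst r) (theta n k) v ↔ Theta n (ty r l)) := by
  induction n with
  | zero =>
    intro k l v hv
    have hsem : Sat (Mst r) (theta 0 k) v ↔ ∀ y : El, mulM r (.inl 1) y = .inr {l} →
        y ≠ .inr {l} → mulM r (.inl 0) y = .inl 0 := by
      rw [← hv]
      exact theta0_sem (Mst r) k v
    rw [hsem]
    constructor
    · intro h i hz
      have := h _ (child_sem' r i l).1 (child_sem' r i l).2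
      change labS r {child i l} = .inl 0 at this
      rw [labS_pos (by rw [ty_child]; exact hz)] at this
      exact absurd this (by simp)
    · rintro h y h1 h2
      obtain ⟨i, k', hk, rfl⟩ := child_sem r _ y h1 h2
      rw [Sum.inr.injEq, Finset.singleton_inj] at hk
      subst hk
      change labS r {child i l} = .inl 0
      exact labS_neg (by rw [ty_child]; exact h i)
  | succ n ih =>
    intro k l v hv
    have hsem : Sat (Mst r) (theta (n + 1) k) v ↔ ∀ y : El, mulM r (.inl 1) y = .inr {l} →
        y ≠ .inr {l} → ¬ Sat (Mst r) (theta n (k + 1)) (Function.update v (k + 1) y) := by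
      rw [← hv]
      exact thetaS_sem (Mst r) n k v
    rw [hsem]
    have key : ∀ i, Sat (Mst r) (theta n (k + 1))
        (Function.update v (k + 1) (Sum.inr {child i l} : El)) ↔ Theta n (ct (ty r l) i) := by
      intro i
      rw [← ty_child]
      exact ih (k + 1) (child i l) (Function.update v (k + 1) (Sum.inr {child i l} : El))
        (by simp)
    constructor
    · intro h i hz
      exact h _ (child_sem' r i l).1 (child_sem' r i l).2 ((key i).mpr hz)
    · rintro h y h1 h2
      obtain ⟨i, k', hk, rfl⟩ := child_sem r _ y h1 h2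
      rw [Sum.inr.injEq, Finset.singleton_inj] at hk
      subst hk
      exact fun h3 => h i ((key i).mp h3)

theorem psi_sem (r : Ty) (n : ℕ) (v : ℕ → El) :
    Sat (Mst r) (psi n) v ↔ ∀ i, Theta n (ct r i) := by
  have hsem : Sat (Mst r) (psi n) v ↔ ∀ x y : El, mulM r (.inl 1) x = x →
      mulM r (.inl 1) y = x → y ≠ x →
      Sat (Mst r) (theta n 1) (Function.update (Function.update v 0 x) 1 y) :=
    psi_gen (Mst r) n v
  rw [hsem]
  have key : ∀ (i : ℕ) (x : El), Sat (Mst r) (theta n 1)
      (Function.update (Function.update v 0 x) 1 (Sum.inr {child i 0} : El)) ↔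
      Theta n (ct r i) := by
    intro i x
    have h1 : ct r i = ty r (child i 0) := by rw [ty_child, ty_zero]
    rw [h1]
    exact theta_sem r n 1 (child i 0)
      (Function.update (Function.update v 0 x) 1 (Sum.inr {child i 0} : El)) (by simp)
  constructor
  · intro h i
    exact (key i _).mp (h (.inr {0}) (.inr {child i 0})
      (by rw [mul_one_eq]; simp only [parS_single, par_zero]) (child_sem' r i 0).1
      (child_sem' r i 0).2)
  · rintro h x y hx h1 h2
    obtain ⟨i, k, rfl, rfl⟩ := child_sem r x y h1 h2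
    have hk : k = 0 := by
      rw [mul_one_eq] at hx
      simp only [parS_single, Sum.inr.injEq, Finset.singleton_inj] at hx
      by_contra hk
      have := par_lt hk
      omega
    subst hk
    exact (key i _).mpr (h i)

/-- ordinary types -/
def Ty.ord : Ty → Prop
  | .z => True
  | .u _ => True
  | .v _ => True
  | .rho => False
  | .rhoV _ => False

theorem Theta_sem (n : ℕ) : (∀ s : Ty, s.ord → (Theta (2 * n) s ↔ s ≠ .v (2 * n))) ∧
    (∀ s : Ty, s.ord → (Theta (2 * n + 1) s ↔ s = .u (2 * n + 1))) := by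
  have odd : ∀ n, (∀ s : Ty, s.ord → (Theta (2 * n) s ↔ s ≠ .v (2 * n))) →
      (∀ s : Ty, s.ord → (Theta (2 * n + 1) s ↔ s = .u (2 * n + 1))) := by
    intro n ih s hs
    change (∀ i, ¬ Theta (2 * n) (ct s i)) ↔ _
    constructor
    · intro h
      have h0 := h 0
      rcases s with _ | (_ | j) | (_ | j) | _ | m
      · rw [ih _ (by trivial)] at h0
        simp [ct] at h0
      · rw [ih _ (by trivial)] at h0
        simp [ct] at h0
      · rw [ih _ (by trivial)] at h0
        simp only [ct, ne_eq, not_not, Ty.v.injEq] at h0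
        rw [h0]
      · rw [ih _ (by simp [ct, Ty.ord])] at h0
        simp [ct] at h0
      · rw [ih _ (by simp [ct, Ty.ord])] at h0
        simp [ct] at h0
      · exact hs.elim
      · exact hs.elim
    · rintro rfl i
      rw [ih _ (by trivial)]
      simp [ct]
  induction n with
  | zero =>
    have h0 : ∀ s : Ty, s.ord → (Theta (2 * 0) s ↔ s ≠ .v (2 * 0)) := by
      intro s hs
      change (∀ i, ct s i ≠ .z) ↔ _
      constructor
      · rintro h rfl
        exact h 1 (by simp [ct])
      · intro h i
        rcases s with _ | (_ | j) | (_ | j) | _ | m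
        · simp [ct]
        · simp [ct]
        · simp [ct]
        · exact absurd rfl h
        · simp only [ct]
          split_ifs <;> simp
        · exact hs.elim
        · exact hs.elim
    exact ⟨h0, odd 0 h0⟩
  | succ n ih =>
    have h1 : ∀ s : Ty, s.ord → (Theta (2 * (n + 1)) s ↔ s ≠ .v (2 * (n + 1))) := by
      intro s hs
      change (∀ i, ¬ Theta (2 * n + 1) (ct s i)) ↔ _
      constructor
      · rintro h rfl
        have h2 := h 0
        have h3 : ct (.v (2 * (n + 1))) 0 = .u (2 * n + 1) := by
          have : 2 * (n + 1) = (2 * n + 1) + 1 := by ring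
          rw [this]
          simp [ct]
        rw [h3] at h2
        exact h2 ((ih.2 _ (by trivial)).mpr rfl)
      · intro h i h2
        rcases s with _ | (_ | j) | (_ | j) | _ | m
        · rw [ih.2 _ (by trivial)] at h2
          simp [ct] at h2
        · rw [ih.2 _ (by trivial)] at h2
          simp [ct] at h2
        · rw [ih.2 _ (by trivial)] at h2
          simp [ct] at h2
        · have hord : (ct (.v 0) i).ord := by
            simp only [ct]; split_ifs <;> trivial
          rw [ih.2 _ hord] at h2
          simp only [ct] at h2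
          split_ifs at h2
          simp at h2
        · have hord : (ct (.v (j + 1)) i).ord := by
            simp only [ct]; split_ifs <;> trivial
          rw [ih.2 _ hord] at h2
          simp only [ct] at h2
          split_ifs at h2
          · simp only [Ty.u.injEq] at h2
            apply h
            rw [h2]
            congr 1
        · exact hs.elim
        · exact hs.elim
    exact ⟨h1, odd (n + 1) h1⟩

theorem psi_rho (n : ℕ) (v : ℕ → El) : Sat (Mst .rho) (psi (2 * n)) v := by
  rw [psi_sem]
  intro i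
  rw [(Theta_sem n).1 _ (by trivial)]
  simp [ct]

theorem psi_rhoV (n : ℕ) (v : ℕ → El) : ¬ Sat (Mst (.rhoV (2 * n))) (psi (2 * n)) v := by
  rw [psi_sem]
  intro h
  have := h 1
  have h1 : ct (.rhoV (2 * n)) 1 = .v (2 * n) := by simp [ct]
  rw [h1, (Theta_sem n).1 _ (by trivial)] at this
  exact this rfl

end Q204.WA
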