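import Pool.Agent.Q204.WA.Sent

/-!
# The complete theory of the model, and that it is not of restricted complexity
-/

namespace Q204.WA

theorem val_congr (M : Str) (t : Tm) {v w : ℕ → M.carrier} (h : ∀ i ∈ t.vars, v i = w i) :
    t.val M v = t.val M w := by
  induction t with
  | var i => exact h i rfl
  | zero => rfl
  | one => rfl
  | add s t ihs iht =>
    simp only [Tm.val]
    rw [ihs fun i hi => h i (Or.inl hi), iht fun i hi => h i (Or.inr hi)]
  | mul s t ihs iht =>
    simp only [Tm.val]
    rw [ihs fun i hi => h i (Or.inl hi), iht fun i hi => h i (Or.inr hi)]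

theorem sat_congr (M : Str) (φ : Fm) : ∀ {v w : ℕ → M.carrier} (_ : ∀ i ∈ φ.fv, v i = w i),
    (Sat M φ v ↔ Sat M φ w) := by
  induction φ with
  | eq s t =>
    intro v w h
    simp only [Sat]
    rw [val_congr M s fun i hi => h i (Or.inl hi), val_congr M t fun i hi => h i (Or.inr hi)]
  | lt s t =>
    intro v w h
    simp only [Sat]
    rw [val_congr M s fun i hi => h i (Or.inl hi), val_congr M t fun i hi => h i (Or.inr hi)]
  | neg φ ih =>
    intro v w h
    exact not_congr (ih h)
  | and φ ψ ih1 ih2 =>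
    intro v w h
    exact and_congr (ih1 fun i hi => h i (Or.inl hi)) (ih2 fun i hi => h i (Or.inr hi))
  | all i φ ih =>
    intro v w h
    refine forall_congr' fun a => ih ?_
    intro j hj
    by_cases hji : j = i
    · subst hji; simp
    · rw [Function.update_of_ne hji, Function.update_of_ne hji]
      exact h j ⟨hj, hji⟩

theorem sat_sentence {M : Str} {φ : Fm} (h : IsSentence φ) (v w : ℕ → M.carrier) :
    Sat M φ v ↔ Sat M φ w := by
  apply sat_congr
  intro i hi
  rw [h] at hi
  exact hi.elim

theorem holds_iff {M : Str} {φ : Fm} (h : IsSentence φ) (v : ℕ → M.carrier) :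
    Holds M φ ↔ Sat M φ v :=
  ⟨fun h' => h' v, fun h' w => (sat_sentence h v w).mp h'⟩

/-- The complete theory of a structure. -/
def Th (M : Str) : Set Fm := {φ | IsSentence φ ∧ Holds M φ}

theorem models_Th (M : Str) : Models M (Th M) := fun _ h => h.2

theorem Th_theory (M : Str) : IsTheory (Th M) :=
  ⟨fun _ h => h.1, fun _ hs h => ⟨hs, h M (models_Th M)⟩⟩

theorem Th_consistent (M : Str) : Consistent (Th M) := ⟨M, models_Th M⟩

theorem isSentence_neg {φ : Fm} : IsSentence (.neg φ) ↔ IsSentence φ := Iff.rfl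

theorem Th_complete (M : Str) {φ : Fm} (h : IsSentence φ) : φ ∈ Th M ∨ Fm.neg φ ∈ Th M := by
  have v : ℕ → M.carrier := fun _ => M.zero
  by_cases hs : Sat M φ v
  · exact Or.inl ⟨h, (holds_iff h v).mpr hs⟩
  · exact Or.inr ⟨isSentence_neg.mpr h, (holds_iff (isSentence_neg.mpr h) v).mpr hs⟩

theorem completion_Th {M : Str} {T' : Set Fm} (h : IsCompletion (Th M) T') : T' = Th M := by
  obtain ⟨h1, h2, ⟨N, hN⟩, h4⟩ := h
  apply Set.Subset.antisymm _ h1
  intro φ hφ
  have hs := h2.1 φ hφ
  rcases Th_complete M hs with h5 | h5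
  · exact h5
  · exfalso
    exact hN _ (h1 h5) (fun _ => N.zero) (hN _ hφ _)

theorem theta_fv (n : ℕ) : ∀ k, (theta n k).fv ⊆ {k} := by
  induction n with
  | zero =>
    intro k i hi
    simp only [theta, childF, Fm.imp, Fm.fv, Tm.vars] at hi
    simp only [Set.mem_diff, Set.mem_union, Set.mem_singleton_iff, Set.mem_empty_iff_false,
      false_or, or_false] at hi
    obtain ⟨h1, h2⟩ := hi
    simp only [Set.mem_singleton_iff]
    tauto
  | succ n ih =>
    intro k i hi
    simp only [theta, childF, Fm.imp, Fm.fv, Tm.vars] at hi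
    simp only [Set.mem_diff, Set.mem_union, Set.mem_singleton_iff, Set.mem_empty_iff_false,
      false_or, or_false] at hi
    obtain ⟨h1, h2⟩ := hi
    simp only [Set.mem_singleton_iff]
    rcases h1 with h1 | h1
    · tauto
    · have := ih (k + 1) h1
      exact absurd this h2

theorem psi_sentence (n : ℕ) : IsSentence (psi n) := by
  unfold IsSentence
  apply Set.eq_empty_of_forall_notMem
  intro i hi
  simp only [psi, childF, Fm.imp, Fm.fv, Tm.vars] at hi
  simp only [Set.mem_diff, Set.mem_union, Set.mem_singleton_iff, Set.mem_empty_iff_false,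
    false_or, or_false] at hi
  obtain ⟨⟨h1, h2⟩, h3⟩ := hi
  rcases h1 with h1 | h1 | h1
  · tauto
  · tauto
  · have := theta_fv n 1 h1
    exact absurd this h2

theorem hier_mono_step {b : Bool} {n : ℕ} {φ : Fm} (h : Hier b n φ) : Hier b (n + 1) φ := by
  induction h with
  | base b h => exact Hier.up (Hier.base _ h)
  | up _ ih => exact Hier.up ih
  | ex i _ ih => exact Hier.ex i ih
  | all i _ ih => exact Hier.all i ih

theorem hier_mono {b : Bool} {n m : ℕ} (hnm : n ≤ m) {φ : Fm} (h : Hier b n φ) :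
    Hier b m φ := by
  induction hnm with
  | refl => exact h
  | step _ ih => exact hier_mono_step ih

/-- The complete theory of the model is not of restricted complexity. -/
theorem not_restricted : ¬ Restricted (Th (Mst .rho)) := by
  rintro ⟨n, A, hA, h⟩
  let v : ℕ → El := fun _ => .inl 0
  -- the second model satisfies `A`
  have h1 : Models (Mst (.rhoV (2 * n))) A := by
    intro φ hφ
    obtain ⟨hs, hh⟩ := hA φ hφ
    have h2 : φ ∈ Th (Mst .rho) := (h φ hs).mpr (fun M hM => hM φ hφ)
    rw [holds_iff hs (M := Mst (.rhoV (2 * n))) v]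
    have hE : E (2 * n) .rho (.rhoV (2 * n)) :=
      Or.inr (Or.inr (Or.inr (Or.inl ⟨2 * n, rfl, rfl, by omega⟩)))
    exact sigma_pres hE (hier_mono (by omega) hh) v (fun _ => rfl) (h2.2 v)
  have h2 : psi (2 * n) ∈ Th (Mst .rho) := ⟨psi_sentence _, fun w => psi_rho n w⟩
  have h3 : Proves A (psi (2 * n)) := (h _ (psi_sentence _)).mp h2
  exact psi_rhoV n v (h3 _ h1 v)

theorem Th_TQ (r : Ty) : Th (Mst r) ∈ TQ := by
  refine ⟨Th_theory _, Th_consistent _, ?_⟩
  intro φ hφ
  refine ⟨?_, models_Q r φ hφ⟩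
  simp only [QAx, Set.mem_insert_iff, Set.mem_singleton_iff] at hφ
  unfold IsSentence
  apply Set.eq_empty_of_forall_notMem
  intro i hi
  rcases hφ with rfl | rfl | rfl | rfl | rfl | rfl | rfl | rfl | rfl | rfl <;>
  · simp only [Fm.iff, Fm.ex, Fm.imp, Fm.fv, Tm.vars] at hi
    simp only [Set.mem_diff, Set.mem_union, Set.mem_singleton_iff, Set.mem_empty_iff_false,
      false_or, or_false] at hi
    try tauto

theorem mem_Tnrestr : Th (Mst .rho) ∈ Tnrestr := by
  refine ⟨Th_TQ _, ?_⟩
  intro T' hT'
  rw [completion_Th hT']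
  exact not_restricted

end Q204.WA
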