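import Pool.Agent.Q204.WA.Arith

/-!
# Arithmetical truths as `Δ₀` statements about an infinite element; no MRDP, no truth definition
-/

namespace Q204.WA

/-- shift of the variables of a term -/
def trT : Tm → Tm
  | .var i => .var (i + 1)
  | .zero => .zero
  | .one => .one
  | .add s t => .add (trT s) (trT t)
  | .mul s t => .mul (trT s) (trT t)

/-- relativization of a formula to the `x < v₀` with `x ≠ x + 1` -/
def tr : Fm → Fm
  | .eq s t => .eq (trT s) (trT t)
  | .lt s t => .lt (trT s) (trT t)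
  | .neg φ => .neg (tr φ)
  | .and φ ψ => .and (tr φ) (tr ψ)
  | .all i φ => .all (i + 1) (.imp (.lt (.var (i + 1)) (.var 0))
      (.imp (.neg (.eq (.var (i + 1)) (.add (.var (i + 1)) .one))) (tr φ)))

theorem delta0_imp {φ ψ : Fm} (h : Delta0 φ) (h' : Delta0 ψ) : Delta0 (.imp φ ψ) :=
  .neg (.and h (.neg h'))

theorem tr_delta0 (φ : Fm) : Delta0 (tr φ) := by
  induction φ with
  | eq s t => exact .eq _ _
  | lt s t => exact .lt _ _
  | neg φ ih => exact .neg ih
  | and φ ψ ih1 ih2 => exact .and ih1 ih2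
  | all i φ ih =>
    exact .ball _ _ (by simp [Tm.vars]) (delta0_imp (.neg (.eq _ _)) ih)

theorem sat_tr_all (M : Str) (i : ℕ) (φ : Fm) (w : ℕ → M.carrier) :
    Sat M (tr (.all i φ)) w ↔ ∀ a, M.lt a (w 0) → a ≠ M.add a M.one →
      Sat M (tr φ) (Function.update w (i + 1) a) := by
  have h1 := sat_ball M (t := .var 0) (i := i + 1) (by simp [Tm.vars])
    (.imp (.neg (.eq (.var (i + 1)) (.add (.var (i + 1)) .one))) (tr φ)) w
  refine h1.trans ?_
  refine forall_congr' fun a => imp_congr Iff.rfl ?_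
  rw [sat_imp]
  simp only [Sat, Tm.val, Function.update_self]
  try exact Iff.rfl

/-- value of a term in the model -/
noncomputable def evM (t : Tm) (w : ℕ → El) : El := t.val (Mst .rho) w

/-- satisfaction in the model -/
def SM (φ : Fm) (w : ℕ → El) : Prop := Sat (Mst .rho) φ w

theorem trT_sem (t : Tm) (w : ℕ → El) (v : ℕ → ℕ) (hv : ∀ i, w (i + 1) = .inl (v i)) :
    evM (trT t) w = .inl (evN t v) := by
  induction t with
  | var i => exact hv i
  | zero => rfl
  | one => rfl
  | add s t ihs iht =>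
    change addM (evM (trT s) w) (evM (trT t) w) = _
    rw [ihs, iht]
    rfl
  | mul s t ihs iht =>
    change mulM .rho (evM (trT s) w) (evM (trT t) w) = _
    rw [ihs, iht]
    rfl

theorem tr_sem (φ : Fm) : ∀ (w : ℕ → El) (v : ℕ → ℕ) (A : Finset ℕ), w 0 = .inr A →
    (∀ i, w (i + 1) = .inl (v i)) → (SM (tr φ) w ↔ SN φ v) := by
  induction φ with
  | eq s t =>
    intro w v A h0 hv
    change evM (trT s) w = evM (trT t) w ↔ evN s v = evN t v
    rw [trT_sem s w v hv, trT_sem t w v hv, Sum.inl.injEq]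
  | lt s t =>
    intro w v A h0 hv
    change ltM (evM (trT s) w) (evM (trT t) w) ↔ evN s v < evN t v
    rw [trT_sem s w v hv, trT_sem t w v hv]
    exact Iff.rfl
  | neg φ ih =>
    intro w v A h0 hv
    exact not_congr (ih w v A h0 hv)
  | and φ ψ ih1 ih2 =>
    intro w v A h0 hv
    exact and_congr (ih1 w v A h0 hv) (ih2 w v A h0 hv)
  | all i φ ih =>
    intro w v A h0 hv
    have key : ∀ a : ℕ, SM (tr φ) (Function.update w (i + 1) (.inl a)) ↔
        SN φ (Function.update v i a) := by
      intro a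
      apply ih _ _ A
      · rw [Function.update_of_ne (by omega)]; exact h0
      · intro j
        by_cases hj : j = i
        · subst hj; simp
        · rw [Function.update_of_ne (by omega), Function.update_of_ne hj]
          exact hv j
    have hsem : SM (tr (.all i φ)) w ↔ ∀ a : El, ltM a (w 0) → a ≠ addM a (.inl 1) →
        SM (tr φ) (Function.update w (i + 1) a) := sat_tr_all (Mst .rho) i φ w
    rw [hsem, SN_all]
    constructor
    · intro h a
      refine (key a).mp (h (.inl a) ?_ ?_)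
      · rw [h0]; trivial
      · simp [addM]
    · intro h a _ ha
      rcases a with a | B
      · exact (key a).mpr (h a)
      · exact absurd rfl ha

theorem trT_vars (t : Tm) : (trT t).vars ⊆ {i | ∃ j ∈ t.vars, i = j + 1} := by
  induction t with
  | var i => rintro j rfl; exact ⟨i, rfl, rfl⟩
  | zero => rintro j h; exact h.elim
  | one => rintro j h; exact h.elim
  | add s t ihs iht =>
    rintro j (h | h)
    · obtain ⟨k, hk, rfl⟩ := ihs h; exact ⟨k, Or.inl hk, rfl⟩
    · obtain ⟨k, hk, rfl⟩ := iht h; exact ⟨k, Or.inr hk, rfl⟩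
  | mul s t ihs iht =>
    rintro j (h | h)
    · obtain ⟨k, hk, rfl⟩ := ihs h; exact ⟨k, Or.inl hk, rfl⟩
    · obtain ⟨k, hk, rfl⟩ := iht h; exact ⟨k, Or.inr hk, rfl⟩

theorem tr_fv (φ : Fm) : (tr φ).fv ⊆ {i | i = 0 ∨ ∃ j ∈ φ.fv, i = j + 1} := by
  induction φ with
  | eq s t =>
    rintro j (h | h)
    · obtain ⟨k, hk, rfl⟩ := trT_vars s h; exact Or.inr ⟨k, Or.inl hk, rfl⟩
    · obtain ⟨k, hk, rfl⟩ := trT_vars t h; exact Or.inr ⟨k, Or.inr hk, rfl⟩
  | lt s t =>
    rintro j (h | h)
    · obtain ⟨k, hk, rfl⟩ := trT_vars s h; exact Or.inr ⟨k, Or.inl hk, rfl⟩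
    · obtain ⟨k, hk, rfl⟩ := trT_vars t h; exact Or.inr ⟨k, Or.inr hk, rfl⟩
  | neg φ ih => exact ih
  | and φ ψ ih1 ih2 =>
    rintro j (h | h)
    · rcases ih1 h with h | ⟨k, hk, rfl⟩
      · exact Or.inl h
      · exact Or.inr ⟨k, Or.inl hk, rfl⟩
    · rcases ih2 h with h | ⟨k, hk, rfl⟩
      · exact Or.inl h
      · exact Or.inr ⟨k, Or.inr hk, rfl⟩
  | all i φ ih =>
    rintro j ⟨h, hj⟩
    have hj' : j ≠ i + 1 := hj
    simp only [Fm.imp, Fm.fv, Tm.vars] at h
    rcases h with (h | h) | ((h | (h | h)) | h)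
    · exact absurd h hj'
    · exact Or.inl h
    · exact absurd h hj'
    · exact absurd h hj'
    · exact h.elim
    · rcases ih h with h | ⟨k, hk, rfl⟩
      · exact Or.inl h
      · refine Or.inr ⟨k, ⟨hk, ?_⟩, rfl⟩
        intro hki
        apply hj'
        have : k = i := hki
        rw [this]

/-! ### Recursively enumerable sets -/

/-- a recursively enumerable set of natural numbers that is not computable -/
theorem exists_re : ∃ S : ℕ → Prop, REPred S ∧ ¬ ComputablePred S := by
  refine ⟨fun n => ∃ c : Nat.Partrec.Code, Encodable.decode (α := Nat.Partrec.Code) n = some c ∧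
    (c.eval 0).Dom, ?_, ?_⟩
  · have h := ComputablePred.halting_problem_re 0
    have h2 : Partrec fun n : ℕ => (Part.ofOption (Encodable.decode (α := Nat.Partrec.Code) n)).bind
        (fun c => Part.assert (c.eval 0).Dom fun _ => Part.some ()) :=
      (Computable.decode.ofOption).bind (Partrec.comp h Computable.snd).to₂
    refine h2.of_eq fun n => ?_
    ext u
    simp
  · intro hc
    apply ComputablePred.halting_problem 0
    obtain ⟨hd, hcomp⟩ := hc
    have h3 : ComputablePred fun c : Nat.Partrec.Code =>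
        ∃ c' : Nat.Partrec.Code, Encodable.decode (α := Nat.Partrec.Code) (Encodable.encode c) =
          some c' ∧ (c'.eval 0).Dom := ⟨fun c => hd _, hcomp.comp Computable.encode⟩
    refine h3.of_eq fun c => ?_
    simp

/-- projections of primitive recursive relations -/
def ExP (P : ℕ → Prop) : Prop := ∃ q : ℕ → ℕ → Prop, PrimrecRel q ∧ ∀ n, P n ↔ ∃ a, q n a

theorem ExP.of_prim {P : ℕ → Prop} (h : PrimrecPred P) : ExP P :=
  ⟨fun n _ => P n, h.comp Primrec.fst, fun _ => ⟨fun h => ⟨0, h⟩, fun ⟨_, h⟩ => h⟩⟩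

theorem ExP.subst {P : ℕ → Prop} (h : ExP P) {f : ℕ → ℕ} (hf : Primrec f) :
    ExP (fun n => P (f n)) := by
  obtain ⟨q, hq, h⟩ := h
  exact ⟨fun n a => q (f n) a, hq.comp (hf.comp Primrec.fst) Primrec.snd, fun n => h (f n)⟩

theorem ExP.ex {P : ℕ → Prop} (h : ExP P) : ExP (fun n => ∃ m, P (Nat.pair n m)) := by
  obtain ⟨q, hq, h⟩ := h
  refine ⟨fun n a => q (Nat.pair n (Nat.unpair a).1) (Nat.unpair a).2, ?_, ?_⟩
  · exact hq.comp (Primrec₂.natPair.comp Primrec.fst
      (Primrec.fst.comp (Primrec.unpair.comp Primrec.snd)))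
      (Primrec.snd.comp (Primrec.unpair.comp Primrec.snd))
  · intro n
    constructor
    · rintro ⟨m, hm⟩
      obtain ⟨a, ha⟩ := (h _).mp hm
      exact ⟨Nat.pair m a, by simpa using ha⟩
    · rintro ⟨a, ha⟩
      exact ⟨(Nat.unpair a).1, (h _).mpr ⟨_, ha⟩⟩

theorem ExP.re {P : ℕ → Prop} (h : ExP P) : REPred P := by
  obtain ⟨q, hq, h⟩ := h
  obtain ⟨hd, hq'⟩ := hq
  let b : ℕ → ℕ → Bool := fun n a => @decide (q n a) (hd (n, a))
  have hb : ∀ n a, b n a = true ↔ q n a := fun n a => by simp [b]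
  have hbp : Primrec₂ b := hq'
  have h1 : Partrec (fun n : ℕ => (Nat.rfind fun a => Part.some (b n a)).map
      fun _ => ()) := by
    refine Partrec.map (Partrec.rfind ?_) (Computable.const ()).to₂
    exact Computable.partrec (hbp.to_comp)
  refine h1.of_eq fun n => ?_
  ext u
  simp only [Part.mem_map_iff, Part.mem_assert_iff, Part.mem_some_iff, exists_prop]
  rw [h n]
  constructor
  · rintro ⟨a, ha, _⟩
    have := Nat.rfind_spec ha
    refine ⟨⟨a, ?_⟩, trivial⟩
    rw [← hb]
    simpa using this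
  · rintro ⟨⟨a, ha⟩, _⟩
    have hdom := (Nat.rfind_dom (p := (fun a => Part.some (b n a) : ℕ →. Bool))).mpr
      ⟨a, by simpa using (hb n a).mpr ha, fun _ => trivial⟩
    exact ⟨_, Part.get_mem hdom, trivial⟩

theorem exP_sat {ψ : Fm} (h : Existential ψ) : ExP (fun n => SatR ψ (asg n)) := by
  induction h with
  | qf h => exact ExP.of_prim (prim_qf h)
  | @ex φ i _ ih =>
    have h1 := (ih.subst (prim_upd i)).ex
    have h2 : (fun n => ∃ m, SatR φ (asg (upd i (Nat.pair n m)))) =
        fun n => SatR (.ex i φ) (asg n) := by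
      funext n
      simp only [asg_upd]
      exact propext (sat_ex (M := Mrec)).symm
    rw [← h2]
    exact h1

/-- satisfaction in the model and in its presentation -/
theorem SM_iff (φ : Fm) (w : ℕ → El) (n : ℕ) (h : ∀ i, enc (w i) = asg n i) :
    SM φ w ↔ SatR φ (asg n) := by
  have h1 := encIso.sat φ w
  have h2 : (fun i => encIso.e (w i)) = asg n := funext h
  rw [h2] at h1
  exact h1

/-- the code of the assignment `v₀ = a, v₁ = b`, all others `0` -/
def acode (a b : ℕ) : ℕ := Encodable.encode [a, b]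

theorem asg_acode (a b i : ℕ) : asg (acode a b) i = if i = 0 then a else if i = 1 then b else 0 := by
  unfold asg acode
  rw [Denumerable.ofNat_encode]
  rcases i with _ | _ | i
  · rfl
  · rfl
  · simp

theorem prim_acode : Primrec₂ acode :=
  Primrec.encode.comp (Primrec.list_cons.comp Primrec.fst
    (Primrec.list_cons.comp Primrec.snd (Primrec.const [])))

/-- the assignment `v₀ = a`, `v₁ = b`, all others `0`, in the model -/
def wasg (a b : El) : ℕ → El := fun i => if i = 0 then a else if i = 1 then b else .inl 0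

theorem wasg_acode (a b : El) (i : ℕ) : enc (wasg a b i) = asg (acode (enc a) (enc b)) i := by
  rw [asg_acode]
  unfold wasg
  split_ifs <;> rfl

/-! ### No MRDP -/

theorem notMem_TMRDP : Th (Mst .rho) ∉ TMRDP := by
  rintro ⟨_, h⟩
  obtain ⟨K, hK, hnc⟩ := exists_re
  obtain ⟨φ, hφ⟩ := (AR.of_re hK).not 0
  have hsig : Hier true 1 (.ex 0 (.and (.eq (.var 0) (.add (.var 0) .one)) (tr φ))) :=
    .ex 0 (.up (.base _ (.and (.eq _ _) (tr_delta0 φ))))
  obtain ⟨ψ, hψ, hp⟩ := h _ hsig
  -- the complement of `K` is defined by `ψ`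
  have key : ∀ n, ¬ K n ↔ SatR ψ (asg (acode 0 (enc (.inl n)))) := by
    intro n
    have h1 : SM ψ (wasg (.inl 0) (.inl n)) ↔ SatR ψ (asg (acode 0 (enc (.inl n)))) :=
      SM_iff ψ _ _ (fun i => wasg_acode _ _ i)
    rw [← h1]
    have h2 := (sat_iff (M := Mst .rho)).mp (hp (Mst .rho) (models_Th _) (wasg (.inl 0) (.inl n)))
    refine Iff.trans ?_ h2
    refine Iff.trans ?_ (sat_ex (M := Mst .rho)).symm
    have h3 : ∀ A : Finset ℕ, SM (tr φ) (Function.update (wasg (.inl 0) (.inl n)) 0 (.inr A)) ↔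
        ¬ K n := by
      intro A
      rw [tr_sem φ _ (fun i => if i = 0 then n else 0) A]
      · rw [hφ]; simp
      · simp
      · intro i
        rw [Function.update_of_ne (by omega)]
        unfold wasg
        rcases i with _ | i
        · rfl
        · simp
    constructor
    · intro hn
      exact ⟨(.inr ∅ : El), rfl, (h3 ∅).mpr hn⟩
    · rintro ⟨a, ha, hs⟩
      have ha' : (a : El) = addM a (.inl 1) := ha
      rcases a with m | A
      · have h5 : m = m + 1 := Sum.inl.inj ha'
        omega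
      · exact (h3 A).mp hs
  have h1 : ExP (fun n => SatR ψ (asg (acode 0 (enc (.inl n))))) := by
    refine (exP_sat hψ).subst (f := fun n => acode 0 (enc (.inl n))) ?_
    exact prim_acode.comp (Primrec.const 0) (Primrec.nat_mul.comp (Primrec.const 2) Primrec.id)
  apply hnc
  rw [ComputablePred.computable_iff_re_compl_re']
  exact ⟨hK, h1.re.of_eq fun n => (key n).symm⟩

end Q204.WA
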