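import Pool.Agent.Q204.WA.Tr

/-!
# No truth definition for unary `Δ₀` formulas
-/

namespace Q204.WA

/-- iterated universal quantification -/
def allL (L : List ℕ) (φ : Fm) : Fm := L.foldr Fm.all φ

theorem sat_allL (M : Str) (L : List ℕ) (φ : Fm) : ∀ v : ℕ → M.carrier,
    Sat M (allL L φ) v ↔ ∀ w, (∀ i, i ∉ L → w i = v i) → Sat M φ w := by
  induction L with
  | nil =>
    intro v
    constructor
    · intro h w hw
      have : w = v := funext fun i => hw i (by simp)
      rw [this]; exact h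
    · intro h
      exact h v fun _ _ => rfl
  | cons a L ih =>
    intro v
    change (∀ b, Sat M (allL L φ) (Function.update v a b)) ↔ _
    constructor
    · intro h w hw
      refine (ih _).mp (h (w a)) w ?_
      intro i hi
      by_cases hia : i = a
      · subst hia; simp
      · rw [Function.update_of_ne hia]
        exact hw i (by simp [hia, hi])
    · intro h b
      rw [ih]
      intro w hw
      apply h
      intro i hi
      rw [List.mem_cons, not_or] at hi
      rw [hw i hi.2, Function.update_of_ne hi.1]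

theorem vars_bdd (t : Tm) : ∃ N, ∀ i ∈ t.vars, i < N := by
  induction t with
  | var i => exact ⟨i + 1, by rintro j rfl; omega⟩
  | zero => exact ⟨0, fun i h => h.elim⟩
  | one => exact ⟨0, fun i h => h.elim⟩
  | add s t ihs iht =>
    obtain ⟨a, ha⟩ := ihs
    obtain ⟨b, hb⟩ := iht
    refine ⟨a + b, ?_⟩
    rintro i (h | h)
    · have := ha i h; omega
    · have := hb i h; omega
  | mul s t ihs iht =>
    obtain ⟨a, ha⟩ := ihs
    obtain ⟨b, hb⟩ := iht
    refine ⟨a + b, ?_⟩
    rintro i (h | h)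
    · have := ha i h; omega
    · have := hb i h; omega

theorem fv_bdd (φ : Fm) : ∃ N, ∀ i ∈ φ.fv, i < N := by
  induction φ with
  | eq s t =>
    obtain ⟨a, ha⟩ := vars_bdd s
    obtain ⟨b, hb⟩ := vars_bdd t
    refine ⟨a + b, ?_⟩
    rintro i (h | h)
    · have := ha i h; omega
    · have := hb i h; omega
  | lt s t =>
    obtain ⟨a, ha⟩ := vars_bdd s
    obtain ⟨b, hb⟩ := vars_bdd t
    refine ⟨a + b, ?_⟩
    rintro i (h | h)
    · have := ha i h; omega
    · have := hb i h; omega
  | neg φ ih => exact ih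
  | and φ ψ ih1 ih2 =>
    obtain ⟨a, ha⟩ := ih1
    obtain ⟨b, hb⟩ := ih2
    refine ⟨a + b, ?_⟩
    rintro i (h | h)
    · have := ha i h; omega
    · have := hb i h; omega
  | all j φ ih =>
    obtain ⟨a, ha⟩ := ih
    exact ⟨a, fun i h => ha i h.1⟩

theorem fv_allL (L : List ℕ) (φ : Fm) : (allL L φ).fv = {i | i ∈ φ.fv ∧ i ∉ L} := by
  induction L with
  | nil => ext i; simp [allL]
  | cons a L ih =>
    change (allL L φ).fv \ {a} = _
    rw [ih]
    ext i
    simp only [Set.mem_sdiff, Set.mem_ofPred_eq, Set.mem_singleton_iff, List.mem_cons, not_or]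
    constructor
    · rintro ⟨⟨h1, h2⟩, h3⟩
      exact ⟨h1, h3, h2⟩
    · rintro ⟨h1, h3, h2⟩
      exact ⟨⟨h1, h2⟩, h3⟩

/-- Arithmetical sets are definable by formulas with the only free variable `v₀`. -/
theorem AR.closed {P : ℕ → Prop} (h : AR P) : ∃ φ : Fm, φ.fv ⊆ {0} ∧
    ∀ v : ℕ → ℕ, SN φ v ↔ P (v 0) := by
  obtain ⟨φ, hφ⟩ := h 0
  obtain ⟨N, hN⟩ := fv_bdd φ
  let L : List ℕ := (List.range N).map (· + 1)
  refine ⟨allL L φ, ?_, ?_⟩
  · rw [fv_allL]
    rintro i ⟨h1, h2⟩
    by_contra h3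
    have h3' : i ≠ 0 := h3
    apply h2
    rw [List.mem_map]
    have := hN i h1
    exact ⟨i - 1, by rw [List.mem_range]; omega, by omega⟩
  · intro v
    have h1 : SN (allL L φ) v ↔ ∀ w : ℕ → ℕ, (∀ i, i ∉ L → w i = v i) → SN φ w :=
      sat_allL Nstd L φ v
    rw [h1]
    constructor
    · intro h2
      exact (hφ v).mp (h2 v fun _ _ => rfl)
    · intro h2 w hw
      rw [hφ w, hw 0 (by simp [L])]
      exact h2

/-- codes of numerals -/
def cnum (n : ℕ) : ℕ := (num n).code

theorem prim_cnum : Primrec cnum := by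
  have h : Primrec (fun n : ℕ => Nat.rec (motive := fun _ => ℕ) 1
      (fun _ c => 5 * Nat.pair c 2 + 3) n) := by
    refine Primrec.nat_rec₁ 1 ?_
    exact Primrec.nat_add.comp (Primrec.nat_mul.comp (Primrec.const 5)
      (Primrec₂.natPair.comp Primrec.snd (Primrec.const 2))) (Primrec.const 3)
  refine h.of_eq fun n => ?_
  induction n with
  | zero => rfl
  | succ n ih =>
    change 5 * Nat.pair (Nat.rec (motive := fun _ => ℕ) 1
      (fun _ c => 5 * Nat.pair c 2 + 3) n) 2 + 3 = _
    rw [ih]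
    rfl

/-- `∃ v₁ < v₀ (v₁ = n ∧ χ)` -/
def diag (n : ℕ) (χ : Fm) : Fm :=
  .neg (.all 1 (.imp (.lt (.var 1) (.var 0)) (.neg (.and (.eq (.var 1) (num n)) χ))))

/-- its code, if `n` is the code of `χ` -/
def dcode (n : ℕ) : ℕ :=
  5 * (5 * Nat.pair 1 (5 * (5 * Nat.pair (5 * Nat.pair (5 * 1) (5 * 0) + 1)
    (5 * (5 * (5 * Nat.pair (5 * Nat.pair (5 * 1) (cnum n)) n + 3) + 2) + 2) + 3) + 2) + 4) + 2

theorem diag_code (χ : Fm) : (diag χ.code χ).code = dcode χ.code := rfl

theorem prim_aff (a b : ℕ) {f : ℕ → ℕ} (hf : Primrec f) : Primrec (fun n => a * f n + b) :=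
  Primrec.nat_add.comp (Primrec.nat_mul.comp (Primrec.const a) hf) (Primrec.const b)

theorem prim_dcode : Primrec dcode := by
  unfold dcode
  refine prim_aff 5 2 (prim_aff 5 4 (Primrec₂.natPair.comp (Primrec.const 1) (prim_aff 5 2
    (prim_aff 5 3 (Primrec₂.natPair.comp (Primrec.const _) (prim_aff 5 2 (prim_aff 5 2
      (prim_aff 5 3 (Primrec₂.natPair.comp ?_ Primrec.id)))))))))
  exact Primrec.nat_mul.comp (Primrec.const 5)
    (Primrec₂.natPair.comp (Primrec.const _) prim_cnum)

theorem diag_delta0 {n : ℕ} {χ : Fm} (h : Delta0 χ) : Delta0 (diag n χ) :=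
  .neg (.ball _ _ (by simp [Tm.vars]) (.neg (.and (.eq _ _) h)))

theorem num_vars (n : ℕ) : (num n).vars = ∅ := by
  induction n with
  | zero => rfl
  | succ n ih => simp [num, Tm.vars, ih]

theorem diag_fv {n : ℕ} {χ : Fm} (h : χ.fv ⊆ {i | i = 0 ∨ i = 1}) : (diag n χ).fv ⊆ {0} := by
  rintro i ⟨h1, h2⟩
  have h2' : i ≠ 1 := h2
  simp only [Fm.imp, Fm.fv, Tm.vars, num_vars, Set.union_empty] at h1
  rcases h1 with (h1 | h1) | (h1 | h1)
  · exact absurd h1 h2'
  · exact h1
  · exact absurd h1 h2'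
  · rcases h h1 with h3 | h3
    · exact h3
    · exact absurd h3 h2'

theorem diag_gen (M : Str) (n : ℕ) (χ : Fm) (w : ℕ → M.carrier) :
    Sat M (diag n χ) w ↔ ∃ a, M.lt a (w 0) ∧ a = numeral M n ∧
      Sat M χ (Function.update w 1 a) := by
  have h1 := sat_ball M (t := .var 0) (i := 1) (by simp [Tm.vars])
    (.neg (.and (.eq (.var 1) (num n)) χ)) w
  refine (not_congr h1).trans ?_
  push Not
  refine exists_congr fun a => and_congr Iff.rfl ?_
  simp only [Sat, not_not, num_val]
  simp only [Tm.val, Function.update_self]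

theorem numeral_M (r : Ty) (n : ℕ) : numeral (Mst r) n = (Sum.inl n : El) := by
  induction n with
  | zero => rfl
  | succ n ih => rw [numeral, ih]; rfl

theorem diag_sem (n : ℕ) (χ : Fm) (w : ℕ → El) (h0 : w 0 = .inr ∅) :
    SM (diag n χ) w ↔ SM χ (Function.update w 1 (.inl n)) := by
  have h1 : SM (diag n χ) w ↔ ∃ a : El, ltM a (w 0) ∧ a = numeral (Mst .rho) n ∧
      SM χ (Function.update w 1 a) := diag_gen (Mst .rho) n χ w
  rw [h1, h0]
  constructor
  · rintro ⟨a, _, h2, h3⟩
    have h4 : a = .inl n := h2.trans (numeral_M .rho n)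
    rw [h4] at h3
    exact h3
  · intro h2
    exact ⟨.inl n, trivial, (numeral_M .rho n).symm, h2⟩

theorem notMem_TtruthU : Th (Mst .rho) ∉ TtruthU := by
  rintro ⟨_, S, hS⟩
  -- the set of `n` with `¬ S(d(n), ∞)` is arithmetical
  have hAR : AR (fun n => ¬ SatR S (asg (acode 1 (2 * dcode n)))) := by
    refine ((AR_sat S).subst (f := fun n => acode 1 (2 * dcode n)) ?_).not
    exact (prim_acode.comp (Primrec.const 1)
      (Primrec.nat_mul.comp (Primrec.const 2) prim_dcode)).to_comp
  obtain ⟨φ, hfv, hφ⟩ := hAR.closed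
  -- its translation
  let χ := tr φ
  have hχ : χ.fv ⊆ {i | i = 0 ∨ i = 1} := by
    intro i hi
    rcases tr_fv φ hi with h | ⟨j, hj, rfl⟩
    · exact Or.inl h
    · have : j = 0 := hfv hj
      exact Or.inr (by rw [this])
  let n := χ.code
  let w : ℕ → El := wasg (.inr ∅) (.inl (diag n χ).code)
  have h1 := hS (diag n χ) (diag_delta0 (tr_delta0 φ)) (diag_fv hχ) (Mst .rho) (models_Th _) w
    (numeral_M .rho _).symm
  have h1' : SM S w ↔ SM (diag n χ) w := h1
  have h2 : SM (diag n χ) w ↔ ¬ SatR S (asg (acode 1 (2 * dcode n))) := by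
    rw [diag_sem n χ w rfl]
    have h3 := tr_sem φ (Function.update w 1 (.inl n)) (fun i => if i = 0 then n else 0) ∅
      (by rw [Function.update_of_ne (by omega)]; rfl) (by
        intro i
        rcases i with _ | i
        · simp
        · rw [Function.update_of_ne (by omega)]
          simp [w, wasg])
    rw [h3, hφ]
    simp
  have h4 : SM S w ↔ SatR S (asg (acode 1 (2 * dcode n))) := by
    apply SM_iff
    intro i
    have h5 := wasg_acode (.inr ∅) (.inl (diag n χ).code) i
    have h6 : enc (.inr ∅) = 1 := by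
      have : bin ∅ = 0 := by simp [bin]
      simp [enc, this]
    rw [h6] at h5
    exact h5
  rw [h1', h2] at h4
  exact (iff_not_self h4.symm).elim

end Q204.WA
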