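import Pool.Agent.Q204.WA.Truth

/-!
# Compositional truth definitions for `Δ₀` formulas
-/

namespace Q204.WA

/-- `y` is (the code of) an assignment, by the formula `A(v₂)`. -/
def isAsgBy (M : Str) (A : Fm) (y : M.carrier) : Prop := Sat M A (fun _ => y)

/-- the assignment `y` gives the variable with index `i` the value `a`, by the formula
`V(v₀, v₂, v₃)` with `v₀ = a`, `v₂ = y`, `v₃ = i`. -/
def valueBy (M : Str) (V : Fm) (y i a : M.carrier) : Prop :=
  Sat M V (fun j => if j = 0 then a else if j = 2 then y else i)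

/-- the formula with code `x` is satisfied by the assignment `y`, by the formula `S(v₁, v₂)`. -/
def satBy (M : Str) (S : Fm) (x y : M.carrier) : Prop :=
  Sat M S (fun j => if j = 1 then x else y)

/-- `y` codes the assignment `w` of elements of `M` to the variables `v₀, v₁, ...`. -/
def Codes (M : Str) (A V : Fm) (y : M.carrier) (w : ℕ → M.carrier) : Prop :=
  isAsgBy M A y ∧ ∀ i, valueBy M V y (numeral M i) (w i)

/-- In `M`, the formula `S(v₁, v₂)` satisfies Tarski's clauses for `Δ₀` formulas under the
assignments given by `A` and `V`. -/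
structure Tarski (M : Str) (A V S : Fm) : Prop where
  nonempty : ∃ y, isAsgBy M A y
  value : ∀ y, isAsgBy M A y → ∀ i : ℕ, ∃! a, valueBy M V y (numeral M i) a
  change : ∀ y w, Codes M A V y w → ∀ (i : ℕ) (a : M.carrier),
    ∃ y', Codes M A V y' (Function.update w i a)
  eq : ∀ y w, Codes M A V y w → ∀ s t : Tm,
    (satBy M S (numeral M (Fm.eq s t).code) y ↔ s.val M w = t.val M w)
  lt : ∀ y w, Codes M A V y w → ∀ s t : Tm,
    (satBy M S (numeral M (Fm.lt s t).code) y ↔ M.lt (s.val M w) (t.val M w))
  neg : ∀ y w, Codes M A V y w → ∀ φ, Delta0 φ →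
    (satBy M S (numeral M (Fm.neg φ).code) y ↔ ¬ satBy M S (numeral M φ.code) y)
  and : ∀ y w, Codes M A V y w → ∀ φ ψ, Delta0 φ → Delta0 ψ →
    (satBy M S (numeral M (Fm.and φ ψ).code) y ↔
      satBy M S (numeral M φ.code) y ∧ satBy M S (numeral M ψ.code) y)
  ball : ∀ y w, Codes M A V y w → ∀ (i : ℕ) (t : Tm) φ, i ∉ t.vars → Delta0 φ →
    (satBy M S (numeral M (Fm.all i (.imp (.lt (.var i) t) φ)).code) y ↔
      ∀ y' a, Codes M A V y' (Function.update w i a) → M.lt a (t.val M w) →
        satBy M S (numeral M φ.code) y')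

/-- The theories with a definable truth predicate for `Δ₀` formulas: there are formulas `S`
(satisfaction) and `A`, `V` (assignments) such that Tarski's clauses hold, for all standard `Δ₀`
formulas, in all models of `T`. -/
def Ttruth : Set (Set Fm) :=
  {T | T ∈ TQ ∧ ∃ A V S : Fm, A.fv ⊆ {2} ∧ V.fv ⊆ {i | i = 0 ∨ i = 2 ∨ i = 3} ∧
    S.fv ⊆ {i | i = 1 ∨ i = 2} ∧ ∀ M : Str, Models M T → Tarski M A V S}

theorem Tarski.correct {M : Str} {A V S : Fm} (h : Tarski M A V S) {φ : Fm} (hφ : Delta0 φ) :
    ∀ y w, Codes M A V y w → (satBy M S (numeral M φ.code) y ↔ Sat M φ w) := by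
  induction hφ with
  | eq s t => intro y w hy; exact h.eq y w hy s t
  | lt s t => intro y w hy; exact h.lt y w hy s t
  | neg h1 ih => intro y w hy; exact (h.neg y w hy _ h1).trans (not_congr (ih y w hy))
  | and h1 h2 ih1 ih2 =>
    intro y w hy
    exact (h.and y w hy _ _ h1 h2).trans (and_congr (ih1 y w hy) (ih2 y w hy))
  | @ball φ i t hi h1 ih =>
    intro y w hy
    rw [h.ball y w hy i t φ hi h1, sat_ball M hi]
    constructor
    · intro h2 a ha
      obtain ⟨y', hy'⟩ := h.change y w hy i a
      exact (ih y' _ hy').mp (h2 y' a hy' ha)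
    · intro h2 y' a hy' ha
      exact (ih y' _ hy').mpr (h2 a ha)

theorem Ttruth_subset : Ttruth ⊆ TtruthU := by
  rintro T ⟨hT, A, V, S, hA, hV, hS, h⟩
  refine ⟨hT, .ex 2 (.ex 3 (.and (.eq (.var 3) .zero) (.and A (.and V S)))), ?_⟩
  intro φ hφ hfv M hM v hv
  have hTa := h M hM
  have key : ∀ y i : M.carrier,
      Sat M (.and (.eq (.var 3) .zero) (.and A (.and V S)))
        (Function.update (Function.update v 2 y) 3 i) ↔
      i = M.zero ∧ isAsgBy M A y ∧ valueBy M V y i (v 0) ∧ satBy M S (v 1) y := by
    intro y i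
    have e0 : Function.update (Function.update v 2 y) 3 i 0 = v 0 := by
      rw [Function.update_of_ne (by omega), Function.update_of_ne (by omega)]
    have e1 : Function.update (Function.update v 2 y) 3 i 1 = v 1 := by
      rw [Function.update_of_ne (by omega), Function.update_of_ne (by omega)]
    have e2 : Function.update (Function.update v 2 y) 3 i 2 = y := by
      rw [Function.update_of_ne (by omega), Function.update_self]
    have e3 : Function.update (Function.update v 2 y) 3 i 3 = i := Function.update_self _ _ _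
    refine and_congr ?_ (and_congr ?_ (and_congr ?_ ?_))
    · simp only [Sat, Tm.val, e3]
    · apply sat_congr
      intro j hj
      have : j = 2 := hA hj
      rw [this, e2]
    · apply sat_congr
      intro j hj
      rcases hV hj with h1 | h1 | h1
      · rw [h1, e0]; simp
      · rw [h1, e2]; simp
      · rw [h1, e3]; simp
    · apply sat_congr
      intro j hj
      rcases hS hj with h1 | h1
      · rw [h1, e1]; simp
      · rw [h1, e2]; simp
  rw [sat_ex]
  simp only [sat_ex, key]
  have hpred : ∀ y, isAsgBy M A y → valueBy M V y M.zero (v 0) →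
      (satBy M S (v 1) y ↔ Sat M φ v) := by
    intro y hy hy0
    choose w hw using hTa.value y hy
    have hc : Codes M A V y w := ⟨hy, fun i => (hw i).1⟩
    rw [hv, hTa.correct hφ y w hc]
    apply sat_congr
    intro j hj
    have hj0 : j = 0 := hfv hj
    rw [hj0]
    exact ((hw 0).2 (v 0) hy0).symm
  constructor
  · rintro ⟨y, i, rfl, hy, hy0, hs⟩
    exact (hpred y hy hy0).mp hs
  · intro hs
    obtain ⟨y, hy⟩ := hTa.nonempty
    choose w hw using hTa.value y hy
    obtain ⟨y', hy'⟩ := hTa.change y w ⟨hy, fun i => (hw i).1⟩ 0 (v 0)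
    have h0 : valueBy M V y' M.zero (v 0) := by
      have := hy'.2 0
      rwa [Function.update_self] at this
    exact ⟨y', M.zero, rfl, hy'.1, h0, (hpred y' hy'.1 h0).mpr hs⟩

theorem notMem_Ttruth : Th (Mst .rho) ∉ Ttruth := fun h => notMem_TtruthU (Ttruth_subset h)

end Q204.WA
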